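import Pool.Agent.P.MP_77a832_co.KC.Iface

/-! Step APX. -/

set_option autoImplicit false
set_option linter.unusedSectionVars false

namespace Pool.Agent.P.MP_77a832_co.KC

open Finset

namespace APXx

lemma one_cls {Y Q : Finset ℕ} {c : ℝ} {n : ℕ} (hQ : Q ⊆ Y)
    (hc : ∀ u : ℕ, ((Y.filter fun A => A / n = u).card : ℝ) ≤ c)
    (h : ∀ A ∈ Q, ∀ B ∈ Q, ¬ A / n < B / n) : (Q.card : ℝ) ≤ c := by
  rcases Q.eq_empty_or_nonempty with rfl | ⟨B, hB⟩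
  · exact le_trans (by simp) (hc 0)
  · refine le_trans ?_ (hc (B / n))
    exact_mod_cast card_le_card fun A hA => mem_filter.2 ⟨hQ hA,
      le_antisymm (not_lt.1 (h B hB A hA)) (not_lt.1 (h A hA B hB))⟩

end APXx

theorem p_APX :
    S_APX := by
  intro τ Φ W i h e t a x r he hAt
  classical
  obtain ⟨E, hE⟩ : ∃ E, E = W.E (W.fib t) i := ⟨_, rfl⟩
  have mono : Monotone E := hE ▸ W.mono _ _
  obtain ⟨Y, hY⟩ : ∃ Y, Y = W.win (W.fib t) i e (W.lab i t) := ⟨_, rfl⟩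
  obtain ⟨lo, hlo⟩ : ∃ lo : ℕ → ℝ, ∀ u, lo u = E (u * 16 ^ h) := ⟨_, fun _ => rfl⟩
  have step : ∀ u u', u < u' → lo (u + 1) ≤ lo u' := fun u u' hu => by
    rw [hlo, hlo]; exact mono (Nat.mul_le_mul_right _ hu)
  have l1 : ∀ B, lo (B / 16 ^ h) ≤ E B := fun B => by rw [hlo]; exact mono (st_le _ _)
  have l2 : ∀ B, E (B + 1) ≤ lo (B / 16 ^ h + 1) := fun B => by rw [hlo]; exact mono (lt_en _ _)
  obtain ⟨X, hX⟩ : ∃ X, X = Y.filter fun B => x - r ≤ lo (B / 16 ^ h) ∧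
    lo (B / 16 ^ h + 1) ≤ x + r := ⟨_, rfl⟩
  obtain ⟨P1, hP1⟩ : ∃ P, P = Y.filter fun B => lo (B / 16 ^ h) < x - r ∧
    x - r ≤ lo (B / 16 ^ h + 1) := ⟨_, rfl⟩
  obtain ⟨P2, hP2⟩ : ∃ P, P = Y.filter fun B => lo (B / 16 ^ h) ≤ x + r ∧
    x + r < lo (B / 16 ^ h + 1) := ⟨_, rfl⟩
  have hAt' : ∀ u : ℕ, ((Y.filter fun A => A / 16 ^ h = u).card : ℝ) ≤ a * 2 ^ e := by
    rw [hY]; exact hAt
  have c1 : (P1.card : ℝ) ≤ a * 2 ^ e := by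
    refine APXx.one_cls (hP1 ▸ filter_subset _ _) hAt' fun A hA B hB hlt => ?_
    rw [hP1, mem_filter] at hA hB
    linarith [step _ _ hlt, hA.2.2, hB.2.1]
  have c2 : (P2.card : ℝ) ≤ a * 2 ^ e := by
    refine APXx.one_cls (hP2 ▸ filter_subset _ _) hAt' fun A hA B hB hlt => ?_
    rw [hP2, mem_filter] at hA hB
    linarith [step _ _ hlt, hA.2.2, hB.2.1]
  have cP : ((P1 ∪ P2).card : ℝ) ≤ 2 * a * 2 ^ e := by
    have : ((P1 ∪ P2).card : ℝ) ≤ P1.card + P2.card := by exact_mod_cast card_union_le _ _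
    linarith
  have key : ∀ B ∈ Y, ∀ y, lo (B / 16 ^ h) ≤ y → y ≤ lo (B / 16 ^ h + 1) →
      (B ∈ X → |y - x| ≤ r) ∧ (|y - x| ≤ r → B ∈ X ∨ B ∈ P1 ∪ P2) := by
    intro B hB y h1 h2
    rw [hX, hP1, hP2, mem_union, mem_filter, mem_filter, mem_filter, abs_le]
    refine ⟨fun H => ⟨by linarith [H.2.1], by linarith [H.2.2]⟩, fun H => ?_⟩
    by_cases g1 : x - r ≤ lo (B / 16 ^ h)
    · by_cases g2 : lo (B / 16 ^ h + 1) ≤ x + r
      · exact Or.inl ⟨hB, g1, g2⟩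
      · exact Or.inr (Or.inr ⟨hB, by linarith [H.2], not_le.1 g2⟩)
    · exact Or.inr (Or.inl ⟨hB, not_le.1 g1, by linarith [H.1]⟩)
  have keyE : ∀ B ∈ Y, (B ∈ X → |E B - x| ≤ r) ∧ (|E B - x| ≤ r → B ∈ X ∨ B ∈ P1 ∪ P2) :=
    fun B hB => key B hB _ (l1 B) ((mono (Nat.le_succ B)).trans (l2 B))
  have XY : X ⊆ Y := hX ▸ filter_subset _ _
  refine ⟨X, P1 ∪ P2, hY ▸ XY, fun B hB A hA => ?_, cP, ?_, ?_, fun s hs hf hl => ?_⟩
  · rw [hX, mem_filter] at hB ⊢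
    obtain ⟨g1, g2⟩ := Web.mem_win.1 hA
    rw [g2]
    refine ⟨?_, hB.2⟩
    have g3 := hB.1
    rw [hY, Web.mem_win] at g3 ⊢
    exact ⟨g1, (cls_up he g2).trans g3.2⟩
  · unfold Web.M
    rw [← hY, ← hE]
    exact_mod_cast card_le_card fun B hB => mem_filter.2 ⟨XY hB, (keyE B (XY hB)).1 hB⟩
  · have : W.M i e t x r ≤ ((X ∪ (P1 ∪ P2)).card : ℝ) := by
      unfold Web.M
      rw [← hY, ← hE]
      exact_mod_cast card_le_card fun B hB =>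
        mem_union.2 ((keyE B (mem_filter.1 hB).1).2 (mem_filter.1 hB).2)
    have h2 : ((X ∪ (P1 ∪ P2)).card : ℝ) ≤ X.card + (P1 ∪ P2).card := by
      exact_mod_cast card_union_le _ _
    linarith
  · have g1 := W.lo s hs i
    have g2 := W.hi s hs i
    rw [hf, ← hE] at g1 g2
    refine key _ ?_ _ ((l1 _).trans g1.le) (g2.le.trans (l2 _))
    rw [hY, Web.mem_win]
    exact ⟨hf ▸ W.mem s hs i, hl⟩

end Pool.Agent.P.MP_77a832_co.KC
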