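import Pool.Agent.P.MP_77a832_co.KC.Iface

/-! Step DET. -/

set_option autoImplicit false
set_option linter.unusedSectionVars false

namespace Pool.Agent.P.MP_77a832_co.KC

open Finset

namespace DETx

lemma sign_choice (g σ x : ℝ) (hg : g * g = 1) (hσ : σ = 1 ∨ σ = -1) :
    g * x = σ * |x| ∨ g * (-x) = σ * |x| := by
  have h1 : σ * σ = 1 := by rcases hσ with h | h <;> rw [h] <;> norm_num
  have h2 : (g * x) ^ 2 = (σ * |x|) ^ 2 := by
    rw [mul_pow, mul_pow, sq_abs, sq g, sq σ, hg, h1]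
  rcases sq_eq_sq_iff_eq_or_eq_neg.1 h2 with h | h
  · exact Or.inl h
  · exact Or.inr (by linarith)

lemma err_le {m R D c x : ℝ} (hD : 0 < D) (hc : 0 < c) (hx : 0 < x)
    (H : 8 * m * R * D ^ 2 ≤ c * x ^ 2) : 2 * m * (4 * R / (c * (x / D))) ≤ x / D := by
  have h1 : 2 * m * (4 * R / (c * (x / D))) = 8 * m * R * D ^ 2 / (c * x * D) := by
    field_simp
    ring
  have h2 : x / D = c * x ^ 2 / (c * x * D) := by
    field_simp
  rw [h1, h2]
  exact div_le_div_of_nonneg_right H (by positivity)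

end DETx

theorem p_DET (hTRANS : S_TRANS) (hSHIFT : S_SHIFT) (hFIN : S_FIN) :
    S_DET := by
  intro τ Φ W h0 h1 e k m t s D ka b R T ze m' Gt Gs he0 he1 hf hl hll hT hM hze hPor hD hka hR hm
    hmT hRm hk hkm hm'
  have ht := Gt.mem
  have hs := Gs.mem
  have hm1 : (1 : ℝ) ≤ m := by exact_mod_cast hm
  have hsl : 0 < W.ll h0 t := Web.ll_pos ht
  set sl := W.ll h0 t with hsl_def
  set d := |W.v 0 s - W.v 0 t| with hd_def
  have hD0 : 0 < D := by linarith
  have h8 : 8 * m * sl < d := lt_of_le_of_lt (mul_le_mul_of_nonneg_right hmT hsl.le) hT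
  have h8' : 8 * sl < d := by nlinarith
  have hd0 : 0 < d := by linarith
  have hdl : d ≤ W.ll h1 t := by
    refine le_trans ?_ (Web.len_le_ll (i := 0))
    have a1 := Web.st_lt_v (i := 0) (e := h1) ht
    have a2 := Web.v_lt_en (i := 0) (e := h1) ht
    have a3 := Web.st_lt_v (i := 0) (e := h1) hs
    have a4 := Web.v_lt_en (i := 0) (e := h1) hs
    have e1 : W.st 0 h1 s = W.st 0 h1 t := by simp only [Web.st, hf, hl]
    have e2 : W.en 0 h1 s = W.en 0 h1 t := by simp only [Web.en, hf, hl]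
    rw [e1] at a3
    rw [e2] at a4
    rw [hd_def, abs_le]
    unfold Web.len
    constructor <;> linarith
  set ρ := T * W.ll h1 t with hρ_def
  have hρ : 8 * m * d ≤ ρ := mul_le_mul hmT hdl hd0.le (by linarith)
  have hρ1 : (m + 1) * d ≤ ρ := by nlinarith
  have hIns : ∀ i, W.Ins ρ i e t := fun i =>
    (Gt.bd i).ins ht ((hM i).trans_lt (mul_lt_mul_of_pos_right hze (by positivity)))
  have hx : (0 : ℝ) < 2 ^ h0 := by positivity
  have hom : 1 ≤ W.om := Web.one_le_om ht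
  have hc : 0 < ka * W.om := mul_pos hka (by linarith)
  have hmu : (0 : ℝ) < 2 ^ h0 / D := div_pos hx hD0
  have muT : 2 ^ h0 / D ≤ W.M 0 e t (W.v 0 t) sl := by
    rw [div_le_iff₀' hD0]
    exact (Gt.lo 0 h0 le_rfl he0).trans (mul_le_mul_of_nonneg_left
      (Web.strip ht rfl rfl he0 Web.len_le_ll) hD0.le)
  have muS : 2 ^ h0 / D ≤ W.M 0 e t (W.v 0 s) sl := by
    rw [div_le_iff₀' hD0]
    exact (Gs.lo 0 h0 le_rfl he0).trans (mul_le_mul_of_nonneg_left
      (Web.strip hs hf (cls_up he1 hl) he0 (Web.len_le_ll.trans hll)) hD0.le)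
  have mu1 : 2 ^ h0 ≤ D * W.M 1 e t (W.v 1 t) (d / 4) :=
    (Gt.lo 1 h0 le_rfl he0).trans (mul_le_mul_of_nonneg_left
      (Web.strip ht rfl rfl he0 (Web.len_le_ll.trans (by linarith))) hD0.le)
  have mu2 : W.M 1 e t (W.v 1 t) (d / 4) ≤ ze * 2 ^ e :=
    (Web.M_mono (by nlinarith)).trans (hM 1)
  refine hFIN W h0 e k t D m m' d ht hD hd0 (by linarith)
    (fun h a1 a2 => ⟨Gt.lo 1 h a1 a2, Gt.up 1 h a1 a2⟩) hPor mu1 ?_ hkm hm' ?_
  · calc 2 * D * 2 ^ k * W.M 1 e t (W.v 1 t) (d / 4) ≤ 2 * D * 2 ^ k * (ze * 2 ^ e) :=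
          mul_le_mul_of_nonneg_left mu2 (by positivity)
      _ = (2 * D * 2 ^ k * ze) * 2 ^ e := by ring
      _ ≤ 1 * 2 ^ e := mul_le_mul_of_nonneg_right hk (by positivity)
      _ = 2 ^ e := one_mul _
  · intro σ hσ Z hZ
    have habs : |σ * d| = d := by
      rcases hσ with h | h <;> rw [h] <;> simp [abs_of_pos hd0]
    have hg : (W.sg (W.fib t) 1 * W.sg (W.fib t) 0) * (W.sg (W.fib t) 1 * W.sg (W.fib t) 0) = 1 := by
      have a1 := W.sg_sq (W.fib t) 1
      have a0 := W.sg_sq (W.fib t) 0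
      linear_combination (W.sg (W.fib t) 0 * W.sg (W.fib t) 0) * a1 + a0
    obtain ⟨a0, a1, ha0, ha1, hd1, hd2⟩ : ∃ a0 a1 : ℝ, 2 ^ h0 / D ≤ W.M 0 e t a0 sl ∧
        2 ^ h0 / D ≤ W.M 0 e t a1 sl ∧ |a0 - W.v 0 t| ≤ d ∧
        W.sg (W.fib t) 1 * W.sg (W.fib t) 0 * (a0 - a1) = σ * d := by
      rcases DETx.sign_choice _ σ (W.v 0 s - W.v 0 t) hg hσ with h | h
      · exact ⟨_, _, muS, muT, le_rfl, h⟩
      · refine ⟨_, _, muT, muS, by simpa using hd0.le, ?_⟩
        rw [← neg_sub]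
        exact h
    have key := hSHIFT W e m t (W.v 1 t) (σ * d) sl (4 * R / (ka * W.om * (2 ^ h0 / D))) Z hsl.le
      (by positivity) (by rw [habs]; exact h8) ?_ ?_ hZ
    · rwa [habs] at key
    · intro y r hr hy
      rw [habs] at hy
      refine hTRANS W e t R (ka * W.om) ρ (2 ^ h0 / D) a0 a1 sl y (y + σ * d) r ht
        (Gt.rect 0 1 (by decide)) (Gt.rect 0 2 (by decide)) hc (Gt.dn 0 1 (by decide))
        (hIns 1) (hIns 2) hmu ha0 ha1 (by rw [hd2]) (by linarith) ?_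
      have : |y + σ * d - W.v 1 t| ≤ |y - W.v 1 t| + d := by
        rw [show y + σ * d - W.v 1 t = (y - W.v 1 t) + σ * d by ring]
        exact (abs_add_le _ _).trans (by rw [habs])
      linarith
    · rw [habs]
      refine (DETx.err_le hD0 hc hx hRm).trans ?_
      rw [div_le_iff₀' hD0]
      exact mu1

end Pool.Agent.P.MP_77a832_co.KC
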