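import Pool.Agent.P.MP_77a832_co.KC.Iface

/-! Step DN. -/

set_option autoImplicit false
set_option linter.unusedSectionVars false

namespace Pool.Agent.P.MP_77a832_co.KC

open Finset

theorem p_DN (hSUMC : S_SUMC) :
    S_DN := by
  intro τ Φ W F i j e c Q hF hc hQ hd
  have h := hSUMC W F i j e (fun f A A' => if W.dn f i j e A A' < c then 1 else 0) hF
    (fun f A B A' B' H H' => by simp only [Web.dn_congr H H'])
  calc (Q.card : ℝ) = ∑ t ∈ Q, (if W.dn (W.fib t) i j e (W.lab i t) (W.lab j t) < c
        then (1 : ℝ) else 0) := by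
        rw [card_eq_sum_ones, Nat.cast_sum]
        exact sum_congr rfl fun t ht => by
          rw [Nat.cast_one]; exact (if_pos (hd t ht)).symm
    _ ≤ ∑ t ∈ W.T, (if W.dn (W.fib t) i j e (W.lab i t) (W.lab j t) < c
        then (1 : ℝ) else 0) :=
        sum_le_sum_of_subset_of_nonneg hQ fun t _ _ => by split_ifs <;> norm_num
    _ = _ := h.symm
    _ ≤ ∑ f ∈ F, ∑ _B ∈ W.S f i, ∑ _B' ∈ W.S f j, c := by
        refine sum_le_sum fun f _ => sum_le_sum fun B _ => sum_le_sum fun B' _ => ?_
        split_ifs with h1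
        · rw [mul_one]; exact h1.le
        · rw [mul_zero]; exact hc
    _ = _ := by
        rw [mul_sum]
        refine sum_congr rfl fun f _ => ?_
        simp only [sum_const, nsmul_eq_mul]
        ring

end Pool.Agent.P.MP_77a832_co.KC
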