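import Pool.Agent.P.MP_77a832_co.KC.Iface

/-! Step ENE. -/

set_option autoImplicit false
set_option linter.unusedSectionVars false

namespace Pool.Agent.P.MP_77a832_co.KC

open Finset

theorem p_ENE (hSUMC : S_SUMC) :
    S_ENE := by
  intro τ Φ W F i j hij hF
  refine ⟨fun e => ?_, fun h e he => ?_⟩
  · have h1 := hSUMC W F i j e (fun _ _ _ => W.om) hF fun _ _ _ _ _ _ _ => rfl
    rw [sum_const, nsmul_eq_mul, mul_comm] at h1
    rw [← h1]
    unfold Web.ener
    refine sum_le_sum fun f _ => sum_le_sum fun B _ => sum_le_sum fun B' _ => ?_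
    rw [sq]
    exact mul_le_mul_of_nonneg_left (Web.dn_le_om hij) Web.dn_nonneg
  · have h1 := hSUMC W F i j h (fun f B B' => W.dn f i j e B B') hF
      fun _ _ _ _ _ H H' => Web.dn_congr (cls_up he H) (cls_up he H')
    have h2 := hSUMC W F i j e (fun f B B' => W.dn f i j e B B') hF
      fun _ _ _ _ _ H H' => Web.dn_congr H H'
    have h3 := h1.trans h2.symm
    unfold Web.ener
    simp only [sub_sq, mul_assoc, sum_add_distrib, sum_sub_distrib, ← mul_sum, h3, ← sq]
    ring

end Pool.Agent.P.MP_77a832_co.KC
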