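import Pool.Agent.P.MP_77a832_co.KC.Iface

/-! Step FIN. -/

set_option autoImplicit false
set_option linter.unusedSectionVars false

namespace Pool.Agent.P.MP_77a832_co.KC

open Finset

theorem p_FIN :
    S_FIN := by
  intro τ Φ W h0 e k t D m m' d ht hD hd hm hLU hP h1 h2 h3 h4 hZ
  have hD0 : 0 < D := by linarith
  have hstrip := fun (h : ℕ) (he : h ≤ e) (hr : W.len 1 h t ≤ d / 4) =>
    Web.strip (W := W) (i := 1) (e := e) ht rfl rfl he hr
  generalize W.M 1 e t (W.v 1 t) (d / 4) = M0 at h1 h2 hZ hstrip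
  have hM : 0 < M0 := by
    have : (0 : ℝ) < 2 ^ h0 := by positivity
    exact (mul_pos_iff_of_pos_left hD0).1 (this.trans_le h1)
  have hex : ∃ h : ℕ, D * M0 < 2 ^ h := pow_unbounded_of_one_lt _ one_lt_two
  obtain ⟨h, hh0, hh1, hh2⟩ : ∃ h : ℕ, h0 ≤ h ∧ D * M0 < 2 ^ h ∧ 2 ^ h ≤ 2 * (D * M0) := by
    have a := Nat.find_spec hex
    have b : h0 < Nat.find hex := by
      by_contra hc
      have : (2 : ℝ) ^ Nat.find hex ≤ 2 ^ h0 := pow_le_pow_right₀ one_le_two (not_lt.1 hc)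
      linarith
    obtain ⟨g, hg⟩ : ∃ g, Nat.find hex = g + 1 := ⟨Nat.find hex - 1, by omega⟩
    have c := not_lt.1 (Nat.find_min hex (m := g) (by omega))
    refine ⟨_, b.le, a, ?_⟩
    rw [hg, pow_succ]
    linarith
  have hk : (0 : ℝ) < 2 ^ k := by positivity
  have h5 : (2 : ℝ) ^ (h + k) ≤ 2 * D * 2 ^ k * M0 := by
    rw [pow_add]
    nlinarith
  have hke : h + k ≤ e := (pow_le_pow_iff_right₀ one_lt_two).1 (h5.trans h2)
  have hlen : d / 4 < W.len 1 h t := by
    by_contra hc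
    have a := hstrip h (by omega) (not_lt.1 hc)
    have b : 2 ^ h ≤ D * W.N 1 h t := (hLU h hh0 (by omega)).1
    nlinarith
  have hN : W.N 1 (h + k) t < m * M0 / 2 := by
    have a : W.N 1 (h + k) t ≤ D * 2 ^ (h + k) := (hLU (h + k) (by omega) hke).2
    have b := mul_le_mul_of_nonneg_left h5 hD0.le
    have c := mul_lt_mul_of_pos_right h3 hM
    nlinarith
  have hs := Web.st_lt_v (W := W) (i := 1) (e := h + k) ht
  have hv := Web.v_lt_en (W := W) (i := 1) (e := h + k) ht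
  have key : ∀ A ∈ W.win (W.fib t) 1 e (W.lab 1 t), W.st 1 (h + k) t < W.E (W.fib t) 1 A →
      W.E (W.fib t) 1 A < W.en 1 (h + k) t → A ∈ W.win (W.fib t) 1 (h + k) (W.lab 1 t) :=
    fun A hA a b => Web.mem_win.2 ⟨(Web.mem_win.1 hA).1,
      cls_of_mem ((W.mono _ _).reflect_lt a).le ((W.mono _ _).reflect_lt b)⟩
  have hen : W.en 1 (h + k) t < W.v 1 t + (m + 1) * d := by
    by_contra hc
    refine absurd (hZ 1 (Or.inl rfl) _ fun A hA u u1 u2 hu => key A hA ?_ ?_) (not_le.2 hN)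
    · nlinarith
    · nlinarith [not_lt.1 hc]
  have hst : W.v 1 t - (m + 1) * d < W.st 1 (h + k) t := by
    by_contra hc
    refine absurd (hZ (-1) (Or.inr rfl) _ fun A hA u u1 u2 hu => key A hA ?_ ?_) (not_le.2 hN)
    · nlinarith [not_lt.1 hc]
    · nlinarith
  have hp : m' * W.len 1 h t ≤ W.en 1 (h + k) t - W.st 1 (h + k) t := hP h hh0 hke
  have hq : 8 * (m + 1) * (d / 4) ≤ m' * W.len 1 h t :=
    mul_le_mul h4 hlen.le (by positivity) (by linarith)
  linarith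

end Pool.Agent.P.MP_77a832_co.KC
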