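import Pool.Agent.P.MP_77a832_co.KC.Iface

/-! Step GOOD. -/

set_option autoImplicit false
set_option linter.unusedSectionVars false

namespace Pool.Agent.P.MP_77a832_co.KC

open Finset

namespace GOODx

lemma big {w : ℕ} (hw : 10 ≤ w) : (1024 : ℝ) ≤ 2 ^ w :=
  calc (1024 : ℝ) = 2 ^ 10 := by norm_num
    _ ≤ 2 ^ w := pow_le_pow_right₀ (by norm_num) hw

lemma num1 {w : ℕ} (hw : 10 ≤ w) :
    (1 / 2 ^ (313 * w) : ℝ) * (2 ^ (4 * w)) ^ 2 + 4 * (1 / 2 ^ (310 * w)) * 2 ^ (4 * w) ≤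
      1 / 2 ^ (304 * w) := by
  have hy := big hw
  simp only [pow_mul' (2 : ℝ) _ w]
  generalize (2 : ℝ) ^ w = y at hy
  have h0 : 0 < y := by linarith
  have e : (1 / y ^ 313 : ℝ) * (y ^ 4) ^ 2 + 4 * (1 / y ^ 310) * y ^ 4 =
      1 / y ^ 304 * ((y + 4) / y ^ 2) := by field_simp
  rw [e]
  refine mul_le_of_le_one_right (by positivity) ((div_le_one (by positivity)).2 ?_)
  nlinarith

lemma num2 {w : ℕ} (hw : 10 ≤ w) :
    600 / (2 : ℝ) ^ (630 * w) ≤ (1 / 2 ^ (313 * w) : ℝ) ^ 2 := by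
  have hy := big hw
  simp only [pow_mul' (2 : ℝ) _ w]
  generalize (2 : ℝ) ^ w = y at hy
  have h0 : 0 < y := by linarith
  have e : 600 / y ^ 630 = (1 / y ^ 313 : ℝ) ^ 2 * (600 / y ^ 4) := by field_simp
  rw [e]
  refine mul_le_of_le_one_right (by positivity) ((div_le_one (by positivity)).2 ?_)
  calc (600 : ℝ) ≤ 1024 ^ 4 := by norm_num
    _ ≤ y ^ 4 := pow_le_pow_left₀ (by norm_num) hy 4

lemma pigeon (a : ℕ → ℝ) (C : ℝ) (K : ℕ) (hK : 0 < K) (h0 : a 0 ≤ C) (h1 : 0 ≤ a K) :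
    ∃ n, n < K ∧ a n - a (n + 1) ≤ C / K := by
  have hK' : (0 : ℝ) < K := by exact_mod_cast hK
  obtain ⟨n, hn, h⟩ := exists_le_of_sum_le (s := range K) (f := fun n => a n - a (n + 1))
    (g := fun _ => C / K) (nonempty_range_iff.2 hK.ne') (by
      rw [sum_range_sub', sum_const, card_range, nsmul_eq_mul, mul_div_cancel₀ _ hK'.ne']
      linarith)
  exact ⟨n, mem_range.1 hn, h⟩

end GOODx

theorem p_GOOD (hENE : S_ENE) (hVAR : S_VAR) (hDN : S_DN) (hRECT : S_RECT) :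
    S_GOOD := by
  classical
  intro τ Φ W F w e0 hw hne hF he0 hS hTyp
  obtain ⟨t0, ht0⟩ := hne
  have hom : 1 ≤ W.om := Web.one_le_om ht0
  have hom0 : 0 < W.om := by linarith
  set P : Finset (Fin 3 × Fin 3) := univ.filter fun p => p.1 ≠ p.2 with hP
  have hPc : P.card = 6 := by rw [hP]; decide
  have hPm : ∀ p ∈ P, p.1 ≠ p.2 := fun p hp => (mem_filter.1 hp).2
  obtain ⟨n, hn, hinc⟩ := GOODx.pigeon
    (fun n => ∑ p ∈ P, W.ener F p.1 p.2 (e0 - 1569 * w + n * (1569 * w)))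
    (6 * (W.om * W.T.card)) (2 ^ (630 * w)) (by positivity)
    (by
      refine (sum_le_card_nsmul P _ (W.om * W.T.card) fun p hp =>
        (hENE W F p.1 p.2 (hPm p hp) hF).1 _).trans ?_
      rw [hPc, nsmul_eq_mul]; norm_num)
    (sum_nonneg fun p _ => by unfold Web.ener; positivity)
  set e := e0 + n * (1569 * w) with he
  have e1 : e0 - 1569 * w + n * (1569 * w) = e - 1569 * w := by omega
  have e2 : e0 - 1569 * w + (n + 1) * (1569 * w) = e := by rw [add_mul]; omega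
  simp only [e1, e2] at hinc
  set h := e - 1569 * w with hh
  have hhe : h ≤ e := Nat.sub_le _ _
  have hsing : ∀ p ∈ P, W.ener F p.1 p.2 h - W.ener F p.1 p.2 e ≤
      6 * (W.om * W.T.card) / 2 ^ (630 * w) := fun p hp => by
    rw [← sum_sub_distrib] at hinc
    push_cast at hinc
    refine le_trans (single_le_sum (f := fun p : Fin 3 × Fin 3 =>
      W.ener F p.1 p.2 h - W.ener F p.1 p.2 e) (fun q hq => ?_) hp) hinc
    rw [← (hENE W F q.1 q.2 (hPm q hq) hF).2 h e hhe]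
    positivity
  set d : ℝ := (1 / 2 ^ (313 * w)) ^ 2 with hd
  have hd0 : 0 < d := by positivity
  set B0 := W.T.filter fun t => ¬ W.Typ w e t with hB0
  set B1 : Fin 3 × Fin 3 → Finset τ := fun p =>
    W.T.filter fun t => W.dt p.1 p.2 e t < 1 / 2 ^ w * W.om with hB1
  set B2 : Fin 3 × Fin 3 → Finset τ := fun p =>
    W.T.filter fun t => d * W.om ^ 2 * (W.N p.1 e t * W.N p.2 e t) < W.va p.1 p.2 h e t with hB2
  have c0 : 8 * B0.card ≤ W.T.card := by
    refine hTyp e (Nat.le_add_right _ _) ?_ B0 (filter_subset _ _) fun t ht => (mem_filter.1 ht).2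
    rw [he, mul_comm n]
    exact Nat.add_le_add_left (Nat.mul_le_mul_left _ hn.le) _
  have c1 : ∀ p ∈ P, ((B1 p).card : ℝ) ≤ W.T.card / 100 := fun p hp => by
    refine (hDN W F p.1 p.2 e (1 / 2 ^ w * W.om) (B1 p) hF (by positivity) (filter_subset _ _)
      fun t ht => (mem_filter.1 ht).2).trans ?_
    have := hS p.1 p.2 (hPm p hp)
    rw [one_div_mul_eq_div, div_mul_eq_mul_div, div_le_div_iff₀ (by positivity) (by norm_num)]
    linarith
  have c2 : ∀ p ∈ P, ((B2 p).card : ℝ) ≤ W.T.card / 100 := fun p hp => by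
    have h1 := (hVAR W F p.1 p.2 h e d (B2 p) (hPm p hp) hF hhe hd0.le (filter_subset _ _)
      fun t ht => (mem_filter.1 ht).2).trans (hsing p hp)
    have h2 := GOODx.num2 hw
    rw [← hd] at h2
    have h3 : 6 * (W.om * W.T.card) / 2 ^ (630 * w) =
        600 / (2 : ℝ) ^ (630 * w) * (W.om * (W.T.card / 100)) := by ring
    have h4 : d * W.om * (B2 p).card ≤ d * W.om * (W.T.card / 100) := by
      rw [mul_assoc d W.om (_ / _)]
      exact h1.trans (h3 ▸ mul_le_mul_of_nonneg_right h2 (by positivity))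
    exact le_of_mul_le_mul_left h4 (by positivity)
  set G := W.T \ (B0 ∪ (P.biUnion B1 ∪ P.biUnion B2)) with hG
  refine ⟨e, Nat.le_add_right _ _, G, ?_, fun t ht => ?_⟩
  · have h1 : W.T.card ≤ G.card + (B0.card + (∑ p ∈ P, (B1 p).card + ∑ p ∈ P, (B2 p).card)) :=
      card_le_card_sdiff_add_card.trans (Nat.add_le_add_left ((card_union_le _ _).trans
        (Nat.add_le_add_left ((card_union_le _ _).trans
          (Nat.add_le_add card_biUnion_le card_biUnion_le)) _)) _)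
    have h2 := sum_le_card_nsmul P _ _ c1
    have h3 := sum_le_card_nsmul P _ _ c2
    rw [hPc, nsmul_eq_mul] at h2 h3
    have h4 : (W.T.card : ℝ) ≤ G.card + (B0.card + (∑ p ∈ P, ((B1 p).card : ℝ) +
        ∑ p ∈ P, ((B2 p).card : ℝ))) := by exact_mod_cast h1
    have h5 : (8 : ℝ) * B0.card ≤ W.T.card := by exact_mod_cast c0
    have h6 : (0 : ℝ) ≤ W.T.card := Nat.cast_nonneg _
    have h7 : (3 : ℝ) * W.T.card ≤ 4 * G.card := by push_cast at h2 h3; linarith
    exact_mod_cast h7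
  · rw [hG, mem_sdiff, mem_union, mem_union, not_or, not_or] at ht
    obtain ⟨hT, q0, q1, q2⟩ := ht
    have hty : W.Typ w e t := by
      by_contra hc
      exact q0 (mem_filter.2 ⟨hT, hc⟩)
    have hmem : ∀ i j : Fin 3, i ≠ j → (i, j) ∈ P := fun i j hij =>
      mem_filter.2 ⟨mem_univ _, hij⟩
    refine ⟨hty, hT, fun i h' a b => ((hty i).1 h' (by omega) b).1,
      fun i h' a b => ((hty i).1 h' (by omega) b).2, fun i => (hty i).2.1, fun i j hij => ?_,
      fun i j hij x r x' r' => ?_⟩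
    · by_contra hc
      exact q1 (mem_biUnion.2 ⟨(i, j), hmem i j hij, mem_filter.2 ⟨hT, not_le.1 hc⟩⟩)
    · have hv : W.va i j h e t ≤ d * W.om ^ 2 * (W.N i e t * W.N j e t) := by
        by_contra hc
        exact q2 (mem_biUnion.2 ⟨(i, j), hmem i j hij, mem_filter.2 ⟨hT, not_le.1 hc⟩⟩)
      refine (hRECT W i j h e t (1 / 2 ^ (313 * w)) (2 ^ (4 * w)) (1 / 2 ^ (310 * w)) hij hhe
        (by positivity) hv ((hty i).1 e (by omega) le_rfl).2 ((hty j).1 e (by omega) le_rfl).2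
        (hty i).2.2.1 (hty j).2.2.1 x r x' r').trans ?_
      rw [div_eq_mul_one_div (W.om * _)]
      exact mul_le_mul_of_nonneg_left (GOODx.num1 hw) (by positivity)

end Pool.Agent.P.MP_77a832_co.KC
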