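import Pool.Agent.P.MP_77a832_co.KC.Iface

/-! Step LOC. -/

set_option autoImplicit false
set_option linter.unusedSectionVars false

namespace Pool.Agent.P.MP_77a832_co.KC

open Finset

namespace LOCx

variable {τ Φ : Type} (W : Web τ Φ)

/-- `t` sends mass to `s` through the pair of indices `p`. -/
def Cond (h e : ℕ) (T : ℝ) (p : Fin 3 × Fin 3) (t s : τ) : Prop :=
  W.fib t = W.fib s ∧ W.lab p.1 t / 16 ^ e = W.lab p.1 s / 16 ^ e ∧
    |W.v p.2 t - W.v p.2 s| ≤ 2 * |W.v p.1 t - W.v p.1 s| ∧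
    |W.v p.1 t - W.v p.1 s| ≤ T * W.len p.2 h t

/-- `t` sends mass to `s`. -/
def Snd (h e : ℕ) (T : ℝ) (t s : τ) : Prop :=
  ∃ p ∈ (univ : Finset (Fin 3)).offDiag, Cond W h e T p t s

theorem snd_of {h e : ℕ} {T : ℝ} {t s : τ} {i j k : Fin 3} (hij : i ≠ j) (hkj : k ≠ j)
    (hik : i ≠ k) (ht : t ∈ W.T)
    (hs : s ∈ W.rc i k e t (W.v i t) (T * W.len j h t) (W.v k t) (T * W.len j h t)) :
    Snd W h e T t s := by
  obtain ⟨h1, h2, h3, h4, h5, h6⟩ := Web.mem_rc.1 hs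
  have h7 := Web.tri' ht h1 h2.symm hik hij hkj
  rw [abs_sub_comm] at h5 h6
  rcases le_total |W.v k t - W.v k s| |W.v i t - W.v i s| with H | H
  · exact ⟨(i, j), by simp [hij], h2.symm, h3.symm, by dsimp only; linarith, h5⟩
  · exact ⟨(k, j), by simp [hkj], h2.symm, h4.symm, by dsimp only; linarith, h6⟩

end LOCx

open LOCx in
theorem p_LOC (hTHREE : S_THREE) (hRECV : S_RECV) :
    S_LOC := by
  classical
  intro τ Φ W h0 h e D ka b R T ze Q hh0 hhe hD hT hze hka hka1 hb hR hR8 hJ hQ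
  rcases Q.eq_empty_or_nonempty with rfl | ⟨t0, ht0⟩
  · simp only [card_empty, Nat.cast_zero, mul_zero]
    positivity
  have hom : 1 ≤ W.om := Web.one_le_om (hQ t0 ht0).1.mem
  have he : (0 : ℝ) < 2 ^ e := by positivity
  have lower : ∀ t ∈ Q, ka ^ 3 * ze ^ 2 * W.om * (2 ^ e) ^ 2 / 8 ≤
      ((W.T.bipartiteAbove (Snd W h e (T + 1)) t).card : ℝ) := by
    intro t ht
    obtain ⟨hG, i0, hi0⟩ := hQ t ht
    obtain ⟨j, hj⟩ := W.ll_eq h t
    obtain ⟨i, k, hij, hkj, hik⟩ := others j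
    have hi := hTHREE W h0 h e t D ka b R T ze i0 i hG hh0 hhe hT hze hka hka1 hb hR hi0
    have hk := hTHREE W h0 h e t D ka b R T ze i0 k hG hh0 hhe hT hze hka hka1 hb hR hi0
    rw [hj] at hi hk
    have hr := (abs_le.1 (hG.rect i k hik (W.v i t) ((T + 1) * W.len j h t) (W.v k t)
      ((T + 1) * W.len j h t))).1
    have hd := hG.dn i k hik
    have hmu : 0 ≤ ka * ze * 2 ^ e / 2 := by positivity
    have h1 : ka * W.om * (ka * ze * 2 ^ e / 2) * (ka * ze * 2 ^ e / 2) ≤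
        W.dt i k e t * W.M i e t (W.v i t) ((T + 1) * W.len j h t) *
          W.M k e t (W.v k t) ((T + 1) * W.len j h t) :=
      mul_le_mul (mul_le_mul hd hi hmu Web.dt_nonneg) hk hmu
        (mul_nonneg Web.dt_nonneg Web.M_nonneg)
    have h2 : ((W.rc i k e t (W.v i t) ((T + 1) * W.len j h t) (W.v k t)
        ((T + 1) * W.len j h t)).card : ℝ) ≤ (W.T.bipartiteAbove (Snd W h e (T + 1)) t).card := by
      exact_mod_cast card_le_card fun s hs =>
        (mem_bipartiteAbove _).2 ⟨(Web.mem_rc.1 hs).1, snd_of W hij hkj hik hG.mem hs⟩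
    have h3 : ka * W.om * (ka * ze * 2 ^ e / 2) * (ka * ze * 2 ^ e / 2) =
        ka ^ 3 * ze ^ 2 * W.om * (2 ^ e) ^ 2 / 4 := by ring
    linarith
  have upper : ∀ s ∈ W.T, ((Q.bipartiteBelow (Snd W h e (T + 1)) s).card : ℝ) ≤
      6 * (W.om * (D * 2 ^ h) * (D * 2 ^ e * (4 * T + 6) + 2 * 2 ^ e)) := by
    intro s _
    have h1 : Q.bipartiteBelow (Snd W h e (T + 1)) s ⊆
        (univ : Finset (Fin 3)).offDiag.biUnion fun p =>
          Q.filter fun t => Cond W h e (T + 1) p t s := by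
      intro t ht
      obtain ⟨h2, p, hp, h3⟩ := (mem_bipartiteBelow _).1 ht
      exact mem_biUnion.2 ⟨p, hp, mem_filter.2 ⟨h2, h3⟩⟩
    have h2 : ∀ p ∈ (univ : Finset (Fin 3)).offDiag,
        ((Q.filter fun t => Cond W h e (T + 1) p t s).card : ℝ) ≤
          W.om * (D * 2 ^ h) * (D * 2 ^ e * (4 * T + 6) + 2 * 2 ^ e) := by
      intro p hp
      refine (hRECV W p.1 p.2 h e s D (T + 1) _ (mem_offDiag.1 hp).2.2 hD (by linarith)
        (fun t ht => (hQ t (mem_filter.1 ht).1).1.mem) fun t ht => ?_).trans ?_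
      · obtain ⟨h3, h4, h5, h6, h7⟩ := mem_filter.1 ht
        exact ⟨h4, h5, h6, h7, (hQ t h3).1.up _ _ (hh0.trans hhe) le_rfl,
          (hQ t h3).1.up _ _ hh0 hhe⟩
      · refine mul_le_mul_of_nonneg_left ?_ (by positivity)
        have : D * 2 ^ e * (4 * (T + 1) + 2) = D * 2 ^ e * (4 * T + 6) := by ring
        linarith
    have h3 := (card_le_card h1).trans card_biUnion_le
    have h4 := sum_le_card_nsmul _ _ _ h2
    have h5 : ((univ : Finset (Fin 3)).offDiag).card = 6 := by decide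
    rw [h5, nsmul_eq_mul, ← Nat.cast_sum] at h4
    exact (Nat.cast_le.2 h3).trans (by exact_mod_cast h4)
  have key := card_nsmul_le_card_nsmul (Snd W h e (T + 1)) lower upper
  rw [nsmul_eq_mul, nsmul_eq_mul] at key
  have hpos : 0 < W.om * 2 ^ e := by positivity
  refine le_of_mul_le_mul_left ?_ hpos
  have e1 : W.om * 2 ^ e * (ka ^ 3 * ze ^ 2 * 2 ^ e * Q.card) =
      8 * (Q.card * (ka ^ 3 * ze ^ 2 * W.om * (2 ^ e) ^ 2 / 8)) := by ring
  have e2 : W.om * 2 ^ e * (48 * D * 2 ^ h * (D * (4 * T + 6) + 2) * W.T.card) =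
      8 * (W.T.card * (6 * (W.om * (D * 2 ^ h) * (D * 2 ^ e * (4 * T + 6) + 2 * 2 ^ e)))) := by ring
  rw [e1, e2]
  linarith

end Pool.Agent.P.MP_77a832_co.KC
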