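import Pool.Agent.P.MP_77a832_co.KC.Iface

/-! Step LOCS. -/

set_option autoImplicit false
set_option linter.unusedSectionVars false

namespace Pool.Agent.P.MP_77a832_co.KC

open Finset

theorem p_LOCS :
    S_LOCS := by
  intro τ Φ W f i j h X Y Q g hX hY hX' hY' hQ hg
  have key : ∀ B ∈ X, ∀ B' ∈ Y, W.dn f i j h B B' * g B B' =
      ∑ t ∈ Q, (if B / 16 ^ h = W.lab i t / 16 ^ h then
          ((W.win f i h (W.lab i t)).card : ℝ)⁻¹ else 0) *
        (if B' / 16 ^ h = W.lab j t / 16 ^ h then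
          ((W.win f j h (W.lab j t)).card : ℝ)⁻¹ else 0) * g (W.lab i t) (W.lab j t) := by
    intro B hB B' hB'
    have e : W.cell f i j h B B' = Q.filter fun t => B / 16 ^ h = W.lab i t / 16 ^ h ∧
        B' / 16 ^ h = W.lab j t / 16 ^ h := by
      ext t
      rw [Web.mem_cell, mem_filter, hQ]
      constructor
      · rintro ⟨h1, rfl, h3, h4⟩
        exact ⟨⟨h1, rfl, hX' B hB (Web.mem_win.2 ⟨W.mem t h1 i, h3⟩),
          hY' B' hB' (Web.mem_win.2 ⟨W.mem t h1 j, h4⟩)⟩, h3.symm, h4.symm⟩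
      · rintro ⟨⟨h1, h2, -, -⟩, h3, h4⟩
        exact ⟨h1, h2, h3.symm, h4.symm⟩
    unfold Web.dn
    rw [e, card_eq_sum_ones, Nat.cast_sum, sum_div, sum_mul, sum_filter]
    refine sum_congr rfl fun t _ => ?_
    by_cases h3 : B / 16 ^ h = W.lab i t / 16 ^ h
    · by_cases h4 : B' / 16 ^ h = W.lab j t / 16 ^ h
      · rw [if_pos ⟨h3, h4⟩, if_pos h3, if_pos h4, hg _ _ _ _ h3 h4, Web.win_congr h3,
          Web.win_congr h4, Nat.cast_one, one_div, mul_inv]
      · simp [h4]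
    · simp [h3]
  have one : ∀ (i : Fin 3) (X : Finset ℕ) (A : ℕ), X ⊆ W.S f i → (∀ B ∈ X, W.win f i h B ⊆ X) →
      A ∈ X → ∑ B ∈ X, (if B / 16 ^ h = A / 16 ^ h then ((W.win f i h A).card : ℝ)⁻¹ else 0) =
        1 := by
    intro i X A h1 h2 h3
    have e : (X.filter fun B => B / 16 ^ h = A / 16 ^ h) = W.win f i h A := by
      ext B
      rw [mem_filter]
      exact ⟨fun hB => Web.mem_win.2 ⟨h1 hB.1, hB.2⟩,
        fun hB => ⟨h2 A h3 hB, (Web.mem_win.1 hB).2⟩⟩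
    have p : ((W.win f i h A).card : ℝ) ≠ 0 := by
      exact_mod_cast (card_pos.2 ⟨A, Web.mem_win.2 ⟨h1 h3, rfl⟩⟩).ne'
    rw [← sum_filter, e, sum_const, nsmul_eq_mul, mul_inv_cancel₀ p]
  rw [sum_congr rfl fun B hB => sum_congr rfl fun B' hB' => key B hB B' hB']
  rw [sum_congr rfl fun B _ => sum_comm, sum_comm]
  refine sum_congr rfl fun t ht => ?_
  obtain ⟨-, -, h3, h4⟩ := (hQ t).1 ht
  simp only [← sum_mul, ← mul_sum]
  rw [one i X _ hX hX' h3, one j Y _ hY hY' h4, one_mul, one_mul]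

end Pool.Agent.P.MP_77a832_co.KC
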