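import Pool.Agent.P.MP_77a832_co.KC.Iface

/-! Step PAIRA. -/

set_option autoImplicit false
set_option linter.unusedSectionVars false

namespace Pool.Agent.P.MP_77a832_co.KC

open Finset

theorem p_PAIRA :
    S_PAIRA := by
  classical
  intro τ Φ W F h D la G hD hla hG h1 h2
  rw [card_eq_sum_card_fiberwise (f := W.fib) (t := F) fun t ht => (h1 t ht).1, Nat.cast_sum,
    sum_mul, mul_sum, mul_sum]
  refine sum_le_sum fun f _ => ?_
  set Q := G.filter fun t => W.fib t = f with hQ
  set L := Q.image (W.lab 0) with hL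
  have hom := W.om_nonneg f
  have a1 : (Q.card : ℝ) ≤ W.om * L.card * (W.S f 1).card :=
    Web.card_le_om (f := f) (i := 0) (j := 1) (by decide) ((filter_subset _ _).trans hG) _ _
      fun t ht => ⟨(mem_filter.1 ht).2, mem_image_of_mem _ ht,
        (mem_filter.1 ht).2 ▸ W.mem t (hG (mem_filter.1 ht).1) 1⟩
  have a2 : (L.card : ℝ) * 2 ^ h ≤ D * la * (W.S f 0).card := by
    rw [card_eq_sum_card_image (fun B => B / 16 ^ h) L, Nat.cast_sum, sum_mul]
    calc _ ≤ ∑ u ∈ L.image (fun B => B / 16 ^ h),
          D * la * (((W.S f 0).filter fun A => A / 16 ^ h = u).card : ℝ) := by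
          refine sum_le_sum fun u hu => ?_
          obtain ⟨B, hB, rfl⟩ := mem_image.1 hu
          obtain ⟨t, ht, rfl⟩ := mem_image.1 hB
          obtain ⟨htG, htf⟩ := mem_filter.1 ht
          have b1 := h2 t htG (L.filter fun B => B / 16 ^ h = W.lab 0 t / 16 ^ h) fun B hB => by
            obtain ⟨hB1, hB2⟩ := mem_filter.1 hB
            obtain ⟨s, hs, rfl⟩ := mem_image.1 hB1
            exact ⟨s, (mem_filter.1 hs).1, (mem_filter.1 hs).2.trans htf.symm, hB2, rfl⟩
          have b2 : (2 : ℝ) ^ h ≤ D * _ := (h1 t htG).2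
          simp only [Web.N, Web.win, htf] at b2
          calc _ ≤ la * (D * _) := mul_le_mul b1 b2 (by positivity) hla
            _ = _ := by ring
      _ ≤ _ := by
          rw [← mul_sum]
          refine mul_le_mul_of_nonneg_left ?_ (by positivity)
          rw [← Nat.cast_sum, Nat.cast_le, sum_card_fiberwise_eq_card_filter]
          exact card_filter_le _ _
  calc _ ≤ W.om * L.card * (W.S f 1).card * 2 ^ h := by gcongr
    _ = W.om * (W.S f 1).card * (L.card * 2 ^ h) := by ring
    _ ≤ W.om * (W.S f 1).card * (D * la * (W.S f 0).card) := by gcongr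
    _ = _ := by ring

end Pool.Agent.P.MP_77a832_co.KC
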