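import Pool.Agent.P.MP_77a832_co.KC.Iface

/-! Step PAIRB. -/

set_option autoImplicit false
set_option linter.unusedSectionVars false

namespace Pool.Agent.P.MP_77a832_co.KC

open Finset

theorem p_PAIRB :
    S_PAIRB := by
  intro τ Φ W h h2 e T mu G t0 X he hG hM hX hmu hc
  classical
  have hX0 : X.Nonempty := card_pos.1 (by exact_mod_cast (by linarith : (0 : ℝ) < X.card))
  obtain ⟨t, ht, hmax⟩ := exists_max_image (G.filter fun s => W.fib s = W.fib t0 ∧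
      W.lab 0 s / 16 ^ h = W.lab 0 t0 / 16 ^ h) (W.ll h2) (by
    obtain ⟨B, hB⟩ := hX0
    obtain ⟨s, h1, h2, h3, _⟩ := hX B hB
    exact ⟨s, mem_filter.2 ⟨h1, h2, h3⟩⟩)
  obtain ⟨ht, hf, hl⟩ := mem_filter.1 ht
  by_contra hn
  have key : ∀ B ∈ X, B ∈ W.win (W.fib t) 0 e (W.lab 0 t) ∧
      W.E (W.fib t) 0 B < W.v 0 t + T * W.ll h2 t ∧
      W.v 0 t - T * W.ll h2 t < W.E (W.fib t) 0 (B + 1) := fun B hB => by
    obtain ⟨s, h1, h3, h4, rfl⟩ := hX B hB
    have h5 : W.fib s = W.fib t := h3.trans hf.symm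
    have h6 := h4.trans hl.symm
    have h7 : |W.v 0 s - W.v 0 t| ≤ T * W.ll h2 t := not_lt.1 fun c =>
      hn ⟨t, ht, s, h1, h5, h6, hmax s (mem_filter.2 ⟨h1, h3, h4⟩), c⟩
    have h8 := W.lo s (hG h1) 0
    have h9 := W.hi s (hG h1) 0
    have h10 := W.mem s (hG h1) 0
    rw [h5] at h8 h9 h10
    obtain ⟨a1, a2⟩ := abs_le.1 h7
    exact ⟨Web.mem_win.2 ⟨h10, cls_up he h6⟩, by linarith, by linarith⟩
  have h1 : ((X.filter fun B => |W.E (W.fib t) 0 B - W.v 0 t| ≤ T * W.ll h2 t).card : ℝ) ≤ mu := by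
    refine le_trans ?_ (hM t ht)
    unfold Web.M
    exact_mod_cast card_le_card fun B hB =>
      mem_filter.2 ⟨(key B (mem_filter.1 hB).1).1, (mem_filter.1 hB).2⟩
  have h3 : ∀ B ∈ X.filter fun B => ¬ |W.E (W.fib t) 0 B - W.v 0 t| ≤ T * W.ll h2 t,
      W.E (W.fib t) 0 B < W.v 0 t - T * W.ll h2 t := fun B hB => by
    obtain ⟨a1, a2⟩ := mem_filter.1 hB
    have a3 := (key B a1).2.1
    by_contra c
    exact a2 (abs_le.2 ⟨by linarith [not_lt.1 c], by linarith⟩)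
  have h4 : (X.filter fun B => ¬ |W.E (W.fib t) 0 B - W.v 0 t| ≤ T * W.ll h2 t).card ≤ 1 := by
    refine card_le_one.2 fun A hA B hB => ?_
    have a1 := (key A (mem_filter.1 hA).1).2.2
    have a2 := (key B (mem_filter.1 hB).1).2.2
    have a3 := (W.mono (W.fib t) 0).reflect_lt ((h3 A hA).trans a2)
    have a4 := (W.mono (W.fib t) 0).reflect_lt ((h3 B hB).trans a1)
    omega
  have h5 := card_filter_add_card_filter_not (s := X)
    fun B => |W.E (W.fib t) 0 B - W.v 0 t| ≤ T * W.ll h2 t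
  have h6 : (X.card : ℝ) ≤ ((X.filter fun B =>
      |W.E (W.fib t) 0 B - W.v 0 t| ≤ T * W.ll h2 t).card : ℝ) + 1 := by
    exact_mod_cast (by omega)
  linarith

end Pool.Agent.P.MP_77a832_co.KC
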