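import Pool.Agent.P.MP_77a832_co.KC.Iface

/-! Step PUSH. -/

set_option autoImplicit false
set_option linter.unusedSectionVars false

namespace Pool.Agent.P.MP_77a832_co.KC

open Finset

theorem p_PUSH :
    S_PUSH := by
  intro τ Φ W i j k e t R ρ x y z r r' hij hik hjk h1 h2 hI hrel hz
  have hsub : W.rc j i e t x r y r' ⊆ W.rc j k e t x r z (r + r') := by
    intro s hs
    obtain ⟨hs1, hf, hj, -, hx, hy⟩ := Web.mem_rc.1 hs
    have h3 : |W.v k s - z| ≤ |W.v i s - y| + |W.v j s - x| :=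
      Web.tri hs1 hij hik hjk (by rw [hf]; exact hrel)
    have h4 : |W.v k s - z| ≤ r + r' := by linarith
    have h5 : |W.v k s - W.v k t| ≤ ρ := by
      have := abs_sub_le (W.v k s) z (W.v k t)
      linarith
    exact Web.mem_rc.2 ⟨hs1, hf, hj, hI.cls hs1 hf h5, hx, h4⟩
  have hc : ((W.rc j i e t x r y r').card : ℝ) ≤ (W.rc j k e t x r z (r + r')).card := by
    exact_mod_cast card_le_card hsub
  have a1 := abs_le.1 (h1 x r y r')
  have a2 := abs_le.1 (h2 x r z (r + r'))
  linarith [a1.1, a2.2]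

end Pool.Agent.P.MP_77a832_co.KC
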