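import Pool.Agent.P.MP_77a832_co.KC.Iface

/-! Step RECT. -/

set_option autoImplicit false
set_option linter.unusedSectionVars false

namespace Pool.Agent.P.MP_77a832_co.KC

open Finset

namespace RECTx

/-- the arithmetic of the three error terms -/
lemma comb {c q d m m' ξ η N N' om u L de : ℝ} (hom : 0 ≤ om) (hu : 0 ≤ u) (hde : 0 ≤ de)
    (hd0 : 0 ≤ d) (hd : d ≤ om) (hN0 : 0 ≤ N) (hN0' : 0 ≤ N') (hN : N ≤ L) (hN' : N' ≤ L)
    (hξ0 : 0 ≤ ξ) (hη0 : 0 ≤ η) (hξ : ξ ≤ m) (hη : η ≤ m') (hm : m ≤ ξ + u) (hm' : m' ≤ η + u)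
    (hmN : m ≤ N) (hmN' : m' ≤ N') (h1 : |q - d * ξ * η| ≤ de * om * (N * N')) (h2 : q ≤ c)
    (h3 : c ≤ q + om * u * N' + om * N * u) :
    |c - d * m * m'| ≤ de * om * L ^ 2 + 2 * om * u * L := by
  have hL : 0 ≤ L := hN0.trans hN
  have a1 : N * N' ≤ L ^ 2 := by nlinarith [mul_le_mul hN hN' hN0' hL]
  have a2 : de * om * (N * N') ≤ de * om * L ^ 2 :=
    mul_le_mul_of_nonneg_left a1 (mul_nonneg hde hom)
  have hou : 0 ≤ om * u := mul_nonneg hom hu
  have a3 : om * u * N' ≤ om * u * L := mul_le_mul_of_nonneg_left hN' hou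
  have a4 : om * u * N ≤ om * u * L := mul_le_mul_of_nonneg_left hN hou
  have hm0' : 0 ≤ m' := hη0.trans hη
  have b1 : ξ * η ≤ m * m' := mul_le_mul hξ hη hη0 (hξ0.trans hξ)
  have b2 : m * m' - ξ * η ≤ u * L + L * u := by
    have e1 : (m - ξ) * m' ≤ u * L :=
      mul_le_mul (by linarith) (hmN'.trans hN') hm0' hu
    have e2 : ξ * (m' - η) ≤ L * u :=
      mul_le_mul (hξ.trans (hmN.trans hN)) (by linarith) (by linarith) hL
    nlinarith
  have b3 : 0 ≤ d * (m * m' - ξ * η) := mul_nonneg hd0 (by linarith)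
  have b4 : d * (m * m' - ξ * η) ≤ om * (u * L + L * u) :=
    mul_le_mul hd b2 (by linarith) hom
  obtain ⟨c1, c2⟩ := abs_le.1 h1
  rw [abs_le]
  constructor <;> nlinarith

/-- Cauchy-Schwarz on a subrectangle -/
lemma cs (X Y A B : Finset ℕ) (g : ℕ → ℕ → ℝ) (hX : X ⊆ A) (hY : Y ⊆ B) {κ : ℝ} (hκ : 0 ≤ κ)
    (H : ∑ a ∈ A, ∑ b ∈ B, g a b ^ 2 ≤ κ ^ 2 * ((A.card : ℝ) * B.card)) :
    |∑ a ∈ X, ∑ b ∈ Y, g a b| ≤ κ * ((A.card : ℝ) * B.card) := by
  have h1 : (∑ p ∈ X ×ˢ Y, g p.1 p.2) ^ 2 ≤ (X ×ˢ Y).card * ∑ p ∈ X ×ˢ Y, g p.1 p.2 ^ 2 :=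
    sq_sum_le_card_mul_sum_sq
  have h2 : ∑ p ∈ X ×ˢ Y, g p.1 p.2 ^ 2 ≤ ∑ p ∈ A ×ˢ B, g p.1 p.2 ^ 2 :=
    sum_le_sum_of_subset_of_nonneg (product_subset_product hX hY) fun _ _ _ => sq_nonneg _
  have h3 : ((X ×ˢ Y).card : ℝ) ≤ (A.card : ℝ) * B.card := by
    have := card_le_card (product_subset_product hX hY)
    rw [card_product A B] at this
    exact_mod_cast this
  rw [sum_product' (f := fun a b => g a b ^ 2) A B] at h2
  rw [sum_product' (f := g) X Y] at h1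
  have h0 : 0 ≤ (A.card : ℝ) * B.card := by positivity
  refine abs_le_of_sq_le_sq' ?_ (mul_nonneg hκ h0) |> abs_le.2
  calc _ ≤ _ := h1
    _ ≤ ((A.card : ℝ) * B.card) * (κ ^ 2 * ((A.card : ℝ) * B.card)) :=
        mul_le_mul h3 (h2.trans H) (sum_nonneg fun _ _ => sq_nonneg _) h0
    _ = _ := by ring

end RECTx

theorem p_RECT (hLOCS : S_LOCS) (hAPX : S_APX) :
    S_RECT := by
  classical
  intro τ Φ W i j h e t de D a hij he hde hva hUi hUj hAi hAj x r x' r'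
  obtain ⟨X, P, hX, hXs, hP, hXM, hMX, hXv⟩ := hAPX W i h e t a x r he hAi
  obtain ⟨Y, P', hY, hYs, hP', hYM, hMY, hYv⟩ := hAPX W j h e t a x' r' he hAj
  have hom := W.om_nonneg (W.fib t)
  have hu : (0 : ℝ) ≤ 2 * a * 2 ^ e := (Nat.cast_nonneg _).trans hP
  set Q0 := W.T.filter fun s => W.fib s = W.fib t ∧ W.lab i s ∈ X ∧ W.lab j s ∈ Y with hQ0
  have hq : ∑ B ∈ X, ∑ B' ∈ Y, W.dn (W.fib t) i j h B B' = Q0.card := by
    have := hLOCS W (W.fib t) i j h X Y Q0 (fun _ _ => 1)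
      (fun B hB => (Web.mem_win.1 (hX hB)).1) (fun B hB => (Web.mem_win.1 (hY hB)).1) hXs hYs
      (fun s => by rw [hQ0, mem_filter]) (fun _ _ _ _ _ _ => rfl)
    simpa using this
  have hd : ∑ B ∈ X, ∑ B' ∈ Y, W.dn (W.fib t) i j e B B' = W.dt i j e t * X.card * Y.card := by
    rw [sum_congr rfl fun B hB => sum_congr rfl fun B' hB' =>
      Web.dn_congr (W := W) (f := W.fib t) (i := i) (j := j) (Web.mem_win.1 (hX hB)).2
        (Web.mem_win.1 (hY hB')).2]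
    simp only [sum_const, nsmul_eq_mul, Web.dt]
    ring
  have h1 : |(Q0.card : ℝ) - W.dt i j e t * X.card * Y.card| ≤
      de * W.om * (W.N i e t * W.N j e t) := by
    have := RECTx.cs X Y _ _
      (fun B B' => W.dn (W.fib t) i j h B B' - W.dn (W.fib t) i j e B B') hX hY
      (mul_nonneg hde hom) (by rw [mul_pow]; exact hva)
    simp only [sum_sub_distrib] at this
    rw [hq, hd] at this
    exact this
  have h2 : (Q0.card : ℝ) ≤ (W.rc i j e t x r x' r').card := by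
    refine Nat.cast_le.2 (card_le_card fun s hs => ?_)
    obtain ⟨hT, hf, hi, hj⟩ := mem_filter.1 hs
    have ci := (Web.mem_win.1 (hX hi)).2
    have cj := (Web.mem_win.1 (hY hj)).2
    exact Web.mem_rc.2 ⟨hT, hf, ci, cj, (hXv s hT hf ci).1 hi, (hYv s hT hf cj).1 hj⟩
  have h3 : ((W.rc i j e t x r x' r').card : ℝ) ≤ Q0.card +
      W.om * (2 * a * 2 ^ e) * W.N j e t + W.om * W.N i e t * (2 * a * 2 ^ e) := by
    set Q1 := W.T.filter fun s => W.fib s = W.fib t ∧ W.lab i s ∈ P ∧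
      W.lab j s ∈ W.win (W.fib t) j e (W.lab j t) with hQ1
    set Q2 := W.T.filter fun s => W.fib s = W.fib t ∧
      W.lab i s ∈ W.win (W.fib t) i e (W.lab i t) ∧ W.lab j s ∈ P' with hQ2
    have e1 := Web.card_le_om (W := W) (f := W.fib t) hij (Q := Q1) (filter_subset _ _) P _
      fun s hs => (mem_filter.1 hs).2
    have e2 := Web.card_le_om (W := W) (f := W.fib t) hij (Q := Q2) (filter_subset _ _) _ P'
      fun s hs => (mem_filter.1 hs).2
    have e3 : W.rc i j e t x r x' r' ⊆ Q0 ∪ Q1 ∪ Q2 := fun s hs => by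
      obtain ⟨hT, hf, ci, cj, vi, vj⟩ := Web.mem_rc.1 hs
      have wi : W.lab i s ∈ W.win (W.fib t) i e (W.lab i t) :=
        Web.mem_win.2 ⟨hf ▸ W.mem s hT i, ci⟩
      have wj : W.lab j s ∈ W.win (W.fib t) j e (W.lab j t) :=
        Web.mem_win.2 ⟨hf ▸ W.mem s hT j, cj⟩
      rcases (hXv s hT hf ci).2 vi with k1 | k1
      · rcases (hYv s hT hf cj).2 vj with k2 | k2
        · exact mem_union_left _ (mem_union_left _ (mem_filter.2 ⟨hT, hf, k1, k2⟩))
        · exact mem_union_right _ (mem_filter.2 ⟨hT, hf, wi, k2⟩)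
      · exact mem_union_left _ (mem_union_right _ (mem_filter.2 ⟨hT, hf, k1, wj⟩))
    have e4 : (W.rc i j e t x r x' r').card ≤ Q0.card + Q1.card + Q2.card :=
      (card_le_card e3).trans ((card_union_le _ _).trans
        (Nat.add_le_add_right (card_union_le _ _) _))
    have e5 : ((W.rc i j e t x r x' r').card : ℝ) ≤ Q0.card + Q1.card + Q2.card := by
      exact_mod_cast e4
    have e6 : W.om * P.card * W.N j e t ≤ W.om * (2 * a * 2 ^ e) * W.N j e t :=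
      mul_le_mul_of_nonneg_right (mul_le_mul_of_nonneg_left hP hom) Web.N_nonneg
    have e7 : W.om * W.N i e t * P'.card ≤ W.om * W.N i e t * (2 * a * 2 ^ e) :=
      mul_le_mul_of_nonneg_left hP' (mul_nonneg hom Web.N_nonneg)
    have e8 : (Q1.card : ℝ) ≤ W.om * P.card * W.N j e t := e1
    have e9 : (Q2.card : ℝ) ≤ W.om * W.N i e t * P'.card := e2
    linarith
  have := RECTx.comb hom hu hde Web.dt_nonneg (Web.dt_le_om hij) Web.N_nonneg Web.N_nonneg hUi hUj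
    (Nat.cast_nonneg _) (Nat.cast_nonneg _) hXM hYM hMX hMY Web.M_le_N Web.M_le_N h1 h2 h3
  refine this.trans (le_of_eq ?_)
  ring

end Pool.Agent.P.MP_77a832_co.KC
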