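import Pool.Agent.P.MP_77a832_co.KC.Iface

/-! Step RECV. -/

set_option autoImplicit false
set_option linter.unusedSectionVars false

namespace Pool.Agent.P.MP_77a832_co.KC

open Finset

namespace RECVx

/-- counting by fibres -/
lemma fib_le {α β : Type} [DecidableEq β] (I : Finset α) (g : α → β) (Y : Finset β) (c : ℝ)
    (hY : ∀ a ∈ I, g a ∈ Y) (hc : ∀ y ∈ Y, ((I.filter fun a => g a = y).card : ℝ) ≤ c) :
    (I.card : ℝ) ≤ Y.card * c := by
  rw [card_eq_sum_card_fiberwise (f := g) (t := Y) fun a ha => hY a ha, Nat.cast_sum]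
  calc _ ≤ ∑ _y ∈ Y, c := sum_le_sum hc
    _ = _ := by rw [sum_const, nsmul_eq_mul]

/-- distance from a point to an interval -/
noncomputable def ds (l r x : ℝ) : ℝ := max 0 (max (l - x) (x - r))

lemma ds_nonneg (l r x : ℝ) : 0 ≤ ds l r x := le_max_left _ _

lemma l_le_ds (l r x : ℝ) : l - x ≤ ds l r x := le_max_of_le_right (le_max_left _ _)

lemma r_le_ds (l r x : ℝ) : x - r ≤ ds l r x := le_max_of_le_right (le_max_right _ _)

lemma ds_le {l r x y : ℝ} (h1 : l < y) (h2 : y < r) : ds l r x ≤ |y - x| := by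
  refine max_le (abs_nonneg _) (max_le ?_ ?_)
  · linarith [le_abs_self (y - x)]
  · linarith [neg_abs_le (y - x)]

lemma uniq {E : ℕ → ℝ} (hE : Monotone E) {p : ℝ} {A B : ℕ} (h1 : E A < p) (h2 : p < E (A + 1))
    (h3 : E B < p) (h4 : p < E (B + 1)) : A = B := by
  have a1 : A < B + 1 := hE.reflect_lt (h1.trans h4)
  have a2 : B < A + 1 := hE.reflect_lt (h3.trans h2)
  omega

lemma card_two {E : ℕ → ℝ} (hE : Monotone E) (p q : ℝ) (X : Finset ℕ)
    (H : ∀ B ∈ X, (E B < p ∧ p < E (B + 1)) ∨ (E B < q ∧ q < E (B + 1))) : X.card ≤ 2 := by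
  classical
  have h1 : (X.filter fun B => E B < p ∧ p < E (B + 1)).card ≤ 1 :=
    card_le_one.2 fun A hA B hB =>
      uniq hE (mem_filter.1 hA).2.1 (mem_filter.1 hA).2.2 (mem_filter.1 hB).2.1
        (mem_filter.1 hB).2.2
  have h2 : (X.filter fun B => ¬ (E B < p ∧ p < E (B + 1))).card ≤ 1 :=
    card_le_one.2 fun A hA B hB => by
      have a := (H A (mem_filter.1 hA).1).resolve_left (mem_filter.1 hA).2
      have b := (H B (mem_filter.1 hB).1).resolve_left (mem_filter.1 hB).2
      exact uniq hE a.1 a.2 b.1 b.2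
  have h3 := card_filter_add_card_filter_not (s := X) fun B => E B < p ∧ p < E (B + 1)
  omega

end RECVx

open RECVx in
theorem p_RECV (hPACK : S_PACK) :
    S_RECV := by
  intro τ Φ W i j h e s D T Q hij hD hT hQ H
  classical
  have hom := W.om_nonneg (W.fib s)
  rcases Q.eq_empty_or_nonempty with rfl | ⟨t0, ht0⟩
  · simp only [card_empty, Nat.cast_zero]; positivity
  set f := W.fib s with hf
  set E : ℕ → ℝ := W.E f i with hE
  set G : ℕ → ℝ := fun u => W.E f j (u * 16 ^ h) with hG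
  have hGm : Monotone G := fun u u' hu => W.mono f j (Nat.mul_le_mul_right _ hu)
  set a' := W.v i s with ha'
  set b' := W.v j s with hb'
  set φ : τ → ℕ × ℕ := fun t => (W.lab i t, W.lab j t / 16 ^ h) with hφ
  set I := Q.image φ with hI
  -- facts on tuples
  have F1 : ∀ t ∈ Q, E (W.lab i t) < W.v i t ∧ W.v i t < E (W.lab i t + 1) := fun t ht => by
    have h1 := W.lo t (hQ ht) i
    have h2 := W.hi t (hQ ht) i
    rw [(H t ht).1] at h1 h2
    exact ⟨h1, h2⟩
  have F2 : ∀ t ∈ Q, G (W.lab j t / 16 ^ h) < W.v j t ∧ W.v j t < G (W.lab j t / 16 ^ h + 1) :=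
    fun t ht => by
      have h1 := Web.st_lt_v (i := j) (e := h) (hQ ht)
      have h2 := Web.v_lt_en (i := j) (e := h) (hQ ht)
      unfold Web.st at h1
      unfold Web.en at h2
      rw [(H t ht).1] at h1 h2
      exact ⟨h1, h2⟩
  have F3 : ∀ t ∈ Q, W.len j h t = G (W.lab j t / 16 ^ h + 1) - G (W.lab j t / 16 ^ h) :=
    fun t ht => by
      unfold Web.len Web.st Web.en
      rw [(H t ht).1]
  -- fibres of the map
  have C0 : (Q.card : ℝ) ≤ I.card * (W.om * (D * 2 ^ h)) := by
    refine fib_le Q φ I _ (fun t ht => mem_image_of_mem _ ht) fun p hp => ?_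
    obtain ⟨t1, ht1, rfl⟩ := mem_image.1 hp
    have h1 := Web.card_le_om (W := W) (f := f) hij (Q := Q.filter fun t => φ t = φ t1)
      ((filter_subset _ _).trans hQ) {W.lab i t1} (W.win f j h (W.lab j t1)) fun t ht => by
        obtain ⟨h2, h3⟩ := mem_filter.1 ht
        obtain ⟨h4, h5⟩ := Prod.ext_iff.1 h3
        refine ⟨(H t h2).1, mem_singleton.2 h4, Web.mem_win.2 ⟨?_, h5⟩⟩
        rw [← (H t h2).1]
        exact W.mem t (hQ h2) j
    have h2 : ((W.win f j h (W.lab j t1)).card : ℝ) ≤ D * 2 ^ h := by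
      have := (H t1 ht1).2.2.2.2.2
      unfold Web.Up Web.N at this
      rwa [(H t1 ht1).1] at this
    rw [card_singleton, Nat.cast_one, mul_one] at h1
    exact h1.trans (mul_le_mul_of_nonneg_left h2 hom)
  set P : ℕ × ℕ → Prop := fun p =>
    ds (G p.2) (G (p.2 + 1)) b' ≤ 2 * ds (E p.1) (E (p.1 + 1)) a' with hP
  have C1 : ((I.filter P).card : ℝ) ≤ D * 2 ^ e * (4 * T + 2) := by
    have hw : ((W.win f i e (W.lab i s)).card : ℝ) ≤ D * 2 ^ e := by
      have := (H t0 ht0).2.2.2.2.1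
      unfold Web.Up at this
      rwa [Web.N_congr (H t0 ht0).1 (H t0 ht0).2.1] at this
    refine (fib_le (I.filter P) Prod.fst (W.win f i e (W.lab i s)) (4 * T + 2) ?_ ?_).trans
      (mul_le_mul_of_nonneg_right hw (by positivity))
    · intro p hp
      obtain ⟨t, ht, rfl⟩ := mem_image.1 (mem_filter.1 hp).1
      refine Web.mem_win.2 ⟨?_, (H t ht).2.1⟩
      rw [← (H t ht).1]
      exact W.mem t (hQ ht) i
    · intro B _
      rw [← card_image_of_injOn (f := Prod.snd) fun p hp q hq hpq =>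
        Prod.ext ((mem_filter.1 hp).2.trans (mem_filter.1 hq).2.symm) hpq]
      refine hPACK G b' (ds (E B) (E (B + 1)) a') T _ hGm (ds_nonneg _ _ _) hT fun u hu => ?_
      obtain ⟨p, hp, rfl⟩ := mem_image.1 hu
      obtain ⟨hp1, rfl⟩ := mem_filter.1 hp
      obtain ⟨hp2, hp3⟩ := mem_filter.1 hp1
      obtain ⟨t, ht, rfl⟩ := mem_image.1 hp2
      refine ⟨(l_le_ds _ _ _).trans hp3, (r_le_ds _ _ _).trans hp3, ?_,
        (F2 t ht).1.trans (F2 t ht).2⟩
      have h1 := (H t ht).2.2.2.1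
      rw [F3 t ht] at h1
      exact (ds_le (F1 t ht).1 (F1 t ht).2).trans h1
  have C2 : ((I.filter fun p => ¬ P p).card : ℝ) ≤ 2 * 16 ^ (W.J - h) := by
    have := fib_le (I.filter fun p => ¬ P p) Prod.snd (range (16 ^ (W.J - h))) 2 ?_ ?_
    · rw [card_range] at this
      push_cast at this
      linarith
    · intro p hp
      obtain ⟨t, ht, rfl⟩ := mem_image.1 (mem_filter.1 hp).1
      refine mem_range.2 (Nat.div_lt_of_lt_mul ?_)
      rw [← pow_add]
      exact (W.lt _ j _ (W.mem t (hQ ht) j)).trans_le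
        (Nat.pow_le_pow_right (by norm_num) (by omega))
    · intro u _
      rw [← card_image_of_injOn (f := Prod.fst) fun p hp q hq hpq =>
        Prod.ext hpq ((mem_filter.1 hp).2.trans (mem_filter.1 hq).2.symm)]
      have := card_two (W.mono f i) (a' + ds (G u) (G (u + 1)) b' / 2)
        (a' - ds (G u) (G (u + 1)) b' / 2)
        (((I.filter fun p => ¬ P p).filter fun p => p.2 = u).image Prod.fst) fun B hB => by
          obtain ⟨p, hp, rfl⟩ := mem_image.1 hB
          obtain ⟨hp1, rfl⟩ := mem_filter.1 hp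
          obtain ⟨hp2, hp3⟩ := mem_filter.1 hp1
          obtain ⟨t, ht, rfl⟩ := mem_image.1 hp2
          have h1 : 2 * ds (E (W.lab i t)) (E (W.lab i t + 1)) a' <
            ds (G (W.lab j t / 16 ^ h)) (G (W.lab j t / 16 ^ h + 1)) b' := not_le.1 hp3
          have h2 : ds (G (W.lab j t / 16 ^ h)) (G (W.lab j t / 16 ^ h + 1)) b' ≤
            |W.v j t - b'| := ds_le (F2 t ht).1 (F2 t ht).2
          have h3 := (H t ht).2.2.1
          have h4 := l_le_ds (E (W.lab i t)) (E (W.lab i t + 1)) a'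
          have h5 := r_le_ds (E (W.lab i t)) (E (W.lab i t + 1)) a'
          obtain ⟨h6, h7⟩ := F1 t ht
          change (E (W.lab i t) < a' + ds (G (W.lab j t / 16 ^ h)) (G (W.lab j t / 16 ^ h + 1)) b' / 2 ∧
            a' + ds (G (W.lab j t / 16 ^ h)) (G (W.lab j t / 16 ^ h + 1)) b' / 2 < E (W.lab i t + 1)) ∨
            (E (W.lab i t) < a' - ds (G (W.lab j t / 16 ^ h)) (G (W.lab j t / 16 ^ h + 1)) b' / 2 ∧
            a' - ds (G (W.lab j t / 16 ^ h)) (G (W.lab j t / 16 ^ h + 1)) b' / 2 < E (W.lab i t + 1))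
          rcases le_total 0 (W.v i t - a') with h8 | h8
          · rw [abs_of_nonneg h8] at h3
            left; constructor <;> linarith
          · rw [abs_of_nonpos h8] at h3
            right; constructor <;> linarith
      exact_mod_cast this
  have C3 : (I.card : ℝ) = (I.filter P).card + (I.filter fun p => ¬ P p).card := by
    exact_mod_cast (card_filter_add_card_filter_not (s := I) P).symm
  rw [mul_comm]
  exact C0.trans (mul_le_mul_of_nonneg_right (by linarith) (by positivity))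

end Pool.Agent.P.MP_77a832_co.KC
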