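import Pool.Agent.P.MP_77a832_co.KC.Iface

/-! Step SHIFT. -/

set_option autoImplicit false
set_option linter.unusedSectionVars false

namespace Pool.Agent.P.MP_77a832_co.KC

open Finset

namespace SHIFTx

theorem near {x b d r : ℝ} {j : ℝ} (hd : 0 < |d|) (hr : r < |d| / 2)
    (h : |x - (b + j * d)| ≤ r) : |(x - b) / d - j| < 1 / 2 := by
  have hd0 : d ≠ 0 := abs_pos.1 hd
  have e : (x - b) / d - j = (x - (b + j * d)) / d := by field_simp; ring
  rw [e, abs_div, div_lt_iff₀ hd]
  linarith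

end SHIFTx

theorem p_SHIFT :
    S_SHIFT := by
  classical
  intro τ Φ W e m t b d s er Z hs her hd hstep hM hZ
  have hm0 : (0 : ℝ) ≤ m := Nat.cast_nonneg _
  have hd0 : 0 < |d| := lt_of_le_of_lt (by positivity) hd
  have hdn : d ≠ 0 := abs_pos.1 hd0
  have hind : ∀ j : ℕ, j ≤ m → W.M 1 e t b (|d| / 4) - j * er ≤
      W.M 1 e t (b + j * d) (|d| / 4 + 2 * j * s) := by
    intro j
    induction j with
    | zero => intro _; simp
    | succ j ih =>
      intro hj
      have h1 := ih (Nat.le_of_succ_le hj)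
      have hj' : (j : ℝ) + 1 ≤ m := by exact_mod_cast hj
      have hj0 : (0 : ℝ) ≤ j := Nat.cast_nonneg _
      have h2 := hstep (b + j * d) (|d| / 4 + 2 * j * s) (by positivity) (by
        have e1 : |b + j * d - b| = j * |d| := by
          rw [add_sub_cancel_left, abs_mul, abs_of_nonneg hj0]
        rw [e1]
        have a1 : ((j : ℝ) + 1) * |d| ≤ m * |d| := mul_le_mul_of_nonneg_right hj' hd0.le
        have a2 : ((j : ℝ) + 1) * s ≤ m * s := mul_le_mul_of_nonneg_right hj' hs
        nlinarith)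
      have e2 : b + j * d + d = b + ((j + 1 : ℕ) : ℝ) * d := by push_cast; ring
      have e3 : |d| / 4 + 2 * j * s + 2 * s = |d| / 4 + 2 * ((j + 1 : ℕ) : ℝ) * s := by
        push_cast; ring
      rw [e2, e3] at h2
      push_cast at h2 ⊢
      linarith
  set F : ℕ → Finset ℕ := fun j => (W.win (W.fib t) 1 e (W.lab 1 t)).filter fun A =>
    |W.E (W.fib t) 1 A - (b + j * d)| ≤ |d| / 4 + 2 * j * s with hF
  have hnear : ∀ j ∈ Icc 1 m, ∀ A ∈ F j, |(W.E (W.fib t) 1 A - b) / d - j| < 1 / 2 := by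
    intro j hj A hA
    have hj' : (j : ℝ) ≤ m := by exact_mod_cast (mem_Icc.1 hj).2
    have a2 : (j : ℝ) * s ≤ m * s := mul_le_mul_of_nonneg_right hj' hs
    exact SHIFTx.near hd0 (by nlinarith) (mem_filter.1 hA).2
  have hsub : (Icc 1 m).biUnion F ⊆ Z := by
    intro A hA
    obtain ⟨j, hj, hA⟩ := mem_biUnion.1 hA
    have h1 := abs_lt.1 (hnear j hj A hA)
    have hj1 : (1 : ℝ) ≤ j := by exact_mod_cast (mem_Icc.1 hj).1
    have hj' : (j : ℝ) ≤ m := by exact_mod_cast (mem_Icc.1 hj).2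
    refine hZ A (mem_filter.1 hA).1 ((W.E (W.fib t) 1 A - b) / d) (by linarith) (by linarith) ?_
    field_simp
    ring
  have hdis : ((Icc 1 m : Finset ℕ) : Set ℕ).PairwiseDisjoint F := by
    intro j hj j' hj' hne
    refine disjoint_left.2 fun A hA hA' => hne ?_
    have h1 := abs_lt.1 (hnear j hj A hA)
    have h2 := abs_lt.1 (hnear j' hj' A hA')
    have a1 : (j : ℝ) < j' + 1 := by linarith
    have a2 : (j' : ℝ) < j + 1 := by linarith
    have b1 : j < j' + 1 := by exact_mod_cast a1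
    have b2 : j' < j + 1 := by exact_mod_cast a2
    omega
  have hcard := card_le_card hsub
  rw [card_biUnion hdis] at hcard
  have hc : (∑ j ∈ Icc 1 m, ((F j).card : ℝ)) ≤ Z.card := by exact_mod_cast hcard
  refine le_trans ?_ hc
  have hl : ∀ j ∈ Icc 1 m, W.M 1 e t b (|d| / 4) / 2 ≤ ((F j).card : ℝ) := by
    intro j hj
    have h1 := hind j (mem_Icc.1 hj).2
    have hj' : (j : ℝ) ≤ m := by exact_mod_cast (mem_Icc.1 hj).2
    have a2 : (j : ℝ) * er ≤ m * er := mul_le_mul_of_nonneg_right hj' her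
    have e1 : W.M 1 e t (b + j * d) (|d| / 4 + 2 * j * s) = ((F j).card : ℝ) := rfl
    rw [← e1]
    linarith
  have := card_nsmul_le_sum _ _ _ hl
  rw [Nat.card_Icc, Nat.add_sub_cancel, nsmul_eq_mul] at this
  linarith

end Pool.Agent.P.MP_77a832_co.KC
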