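import Pool.Agent.P.MP_77a832_co.KC.Iface

/-! Step SUMC. -/

set_option autoImplicit false
set_option linter.unusedSectionVars false

namespace Pool.Agent.P.MP_77a832_co.KC

open Finset

theorem p_SUMC (hLOCS : S_LOCS) :
    S_SUMC := by
  classical
  intro τ Φ W F i j h g hF hg
  rw [← sum_fiberwise_of_maps_to (s := W.T) (t := F) (g := W.fib) hF]
  refine sum_congr rfl fun f _ => ?_
  rw [hLOCS W f i j h (W.S f i) (W.S f j) (W.T.filter fun t => W.fib t = f) (g f)
    Subset.rfl Subset.rfl (fun B _ A hA => (Web.mem_win.1 hA).1)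
    (fun B _ A hA => (Web.mem_win.1 hA).1) (fun t => ?_) (hg f)]
  · refine sum_congr rfl fun t ht => ?_
    rw [(mem_filter.1 ht).2]
  · rw [mem_filter]
    constructor
    · rintro ⟨h1, h2⟩
      exact ⟨h1, h2, h2 ▸ W.mem t h1 i, h2 ▸ W.mem t h1 j⟩
    · rintro ⟨h1, h2, -⟩
      exact ⟨h1, h2⟩

end Pool.Agent.P.MP_77a832_co.KC
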