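import Pool.Agent.P.MP_77a832_co.KC.Iface

/-! Step THREE. -/

set_option autoImplicit false
set_option linter.unusedSectionVars false

namespace Pool.Agent.P.MP_77a832_co.KC

open Finset

theorem p_THREE (hPUSH : S_PUSH) :
    S_THREE := by
  intro τ Φ W h0 h e t D ka b R T ze i k hG h1 h2 hT hze hka hk1 hb hR hM
  have ht := hG.mem
  have hl := W.ll_pos (h := h) ht
  have hP : (0 : ℝ) < 2 ^ e := by positivity
  have hzP : 0 < ze * 2 ^ e := by positivity
  by_cases hik : i = k
  · subst hik
    have h3 := W.M_mono (i := i) (e := e) (t := t) (x := W.v i t)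
      (show T * W.ll h t ≤ (T + 1) * W.ll h t by linarith)
    nlinarith
  obtain ⟨j, hji, hjk⟩ := third i k hik
  by_contra hc
  rw [not_le] at hc
  have h3 := hPUSH W i j k e t R _ (W.v j t) (W.v i t) (W.v k t) (W.ll h t) (T * W.ll h t)
    hji.symm hik hjk (hG.rect j i hji) (hG.rect j k hjk)
    ((hG.bd k).ins ht (hc.trans_le (by nlinarith))) (W.rel ht hji.symm hik hjk)
    (by rw [sub_self, abs_zero]; linarith)
  rw [show W.ll h t + T * W.ll h t = (T + 1) * W.ll h t by ring] at h3
  have h4 := W.strip (i := j) ht rfl rfl h2 W.len_le_ll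
  have h5 := W.one_le_N (i := j) (e := h) ht
  have h6 : 2 ^ h ≤ D * W.N j h t := hG.lo j h h1 h2
  have h7 := hG.dn j i hji
  have h8 := W.dt_le_om (e := e) (t := t) hjk
  have h9 := W.one_le_om ht
  have hk := W.M_nonneg (i := k) (e := e) (t := t) (x := W.v k t) (r := (T + 1) * W.ll h t)
  generalize W.M k e t _ _ = Mk at *
  generalize W.M i e t _ _ = Mi at *
  generalize W.M j e t _ _ = Mj at *
  have hD : 0 < D := by
    have : (0 : ℝ) < 2 ^ h := by positivity
    by_contra h0
    nlinarith
  have hj : 0 < W.om * Mj := mul_pos (by linarith) (by linarith)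
  have a1 : ka * W.om * Mj * (ze * 2 ^ e) ≤ W.dt j i e t * Mj * Mi := by
    have := W.dt_nonneg (i := j) (j := i) (e := e) (t := t)
    have : 0 ≤ Mj := by linarith
    gcongr
  have a2 : W.dt j k e t * Mj * Mk ≤ W.om * Mj * Mk := by gcongr; linarith
  have a3 : 4 * R ≤ ka * ze * W.om * 2 ^ e * Mj := by
    refine le_of_mul_le_mul_right (hR.trans ?_) hD
    rw [mul_assoc _ Mj, mul_comm Mj]
    gcongr
    exact h6.trans (by gcongr)
  nlinarith [mul_lt_mul_of_pos_left hc hj]

end Pool.Agent.P.MP_77a832_co.KC
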