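import Pool.Agent.P.MP_77a832_co.KC.Iface

/-! Step TRANS. -/

set_option autoImplicit false
set_option linter.unusedSectionVars false

namespace Pool.Agent.P.MP_77a832_co.KC

open Finset

namespace TRANSx

/-- division by a strip mass -/
lemma cut {a b m mu R : ℝ} (hR : 0 ≤ R) (hmu : 0 < mu) (hm : mu ≤ m)
    (H : m * a ≤ m * b + 2 * R) : a ≤ b + 2 * R / mu := by
  have hm0 : 0 < m := hmu.trans_le hm
  have h1 : 2 * R / m ≤ 2 * R / mu := div_le_div_of_nonneg_left (by linarith) hmu hm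
  have h2 : a ≤ b + 2 * R / m := by
    have : m * a ≤ m * (b + 2 * R / m) := by
      rw [mul_add, mul_div_cancel₀ _ hm0.ne']; exact H
    exact le_of_mul_le_mul_left this hm0
  linarith

end TRANSx

theorem p_TRANS (hPUSH : S_PUSH) :
    S_TRANS := by
  intro τ Φ W e t R c ρ mu a0 a1 s y y' r ht h01 h02 hc hcd hI1 hI2 hmu hm0 hm1 hy' hρ hρ'
  have hR : 0 ≤ R := (abs_nonneg _).trans (h01 0 0 0 0)
  have s0 := W.sg_sq (W.fib t) 0
  have s1 := W.sg_sq (W.fib t) 1
  have s2 := W.sg_sq (W.fib t) 2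
  obtain ⟨z, hz⟩ : ∃ z : ℝ,
      z = -(W.sg (W.fib t) 2 * (W.sg (W.fib t) 0 * a0 + W.sg (W.fib t) 1 * y)) := ⟨_, rfl⟩
  have r1 : W.sg (W.fib t) 1 * y + W.sg (W.fib t) 0 * a0 + W.sg (W.fib t) 2 * z = 0 := by
    rw [hz]
    linear_combination (-(W.sg (W.fib t) 0 * a0 + W.sg (W.fib t) 1 * y)) * s2
  have r2 : W.sg (W.fib t) 2 * z + W.sg (W.fib t) 0 * a1 + W.sg (W.fib t) 1 * y' = 0 := by
    rw [hy']
    linear_combination r1 + (W.sg (W.fib t) 0 * (a0 - a1)) * s1
  have hzt : |z - W.v 2 t| ≤ |a0 - W.v 0 t| + |y - W.v 1 t| := by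
    have := Web.tri (W := W) (i := 0) (j := 1) (k := 2) ht (by decide) (by decide) (by decide)
      (x := a0) (y := y) (z := z) (by linear_combination r1)
    rw [abs_sub_comm z, abs_sub_comm a0, abs_sub_comm y]
    exact this
  have p1 := hPUSH W 1 0 2 e t R ρ a0 y z s r (by decide) (by decide) (by decide) h01 h02 hI2 r1
    (by linarith)
  have p2 := hPUSH W 2 0 1 e t R ρ a1 z y' s (s + r) (by decide) (by decide) (by decide) h02 h01
    hI1 r2 (by linarith)
  have e2 : s + (s + r) = r + 2 * s := by ring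
  rw [e2] at p2
  have q1 : W.dt 0 1 e t * W.M 1 e t y r ≤ W.dt 0 2 e t * W.M 2 e t z (s + r) + 2 * R / mu :=
    TRANSx.cut hR hmu hm0 (by linarith)
  have q2 : W.dt 0 2 e t * W.M 2 e t z (s + r) ≤
      W.dt 0 1 e t * W.M 1 e t y' (r + 2 * s) + 2 * R / mu :=
    TRANSx.cut hR hmu hm1 (by linarith)
  have q3 : W.dt 0 1 e t * W.M 1 e t y r ≤
      W.dt 0 1 e t * W.M 1 e t y' (r + 2 * s) + 2 * (2 * R / mu) := by linarith
  have q4 := TRANSx.cut (R := 2 * R / mu) (by positivity) hc hcd q3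
  have e3 : 2 * (2 * R / mu) / c = 4 * R / (c * mu) := by
    field_simp
    ring
  rw [e3] at q4
  exact q4

end Pool.Agent.P.MP_77a832_co.KC
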