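import Pool.Agent.P.MP_77a832_co.KC.Iface

/-! Step VAR. -/

set_option autoImplicit false
set_option linter.unusedSectionVars false

namespace Pool.Agent.P.MP_77a832_co.KC

open Finset

namespace VARx

variable {τ Φ : Type}

theorem avg1 (W : Web τ Φ) (f : Φ) (i : Fin 3) (e : ℕ) (φ : ℕ → ℝ) :
    ∑ B ∈ W.S f i, (∑ A ∈ W.win f i e B, φ A) / (W.win f i e B).card = ∑ A ∈ W.S f i, φ A := by
  have h1 : ∀ B ∈ W.S f i, (∑ A ∈ W.win f i e B, φ A) / (W.win f i e B).card =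
      ∑ A ∈ W.S f i, if B / 16 ^ e = A / 16 ^ e then φ A / (W.win f i e A).card else 0 := by
    intro B _
    rw [sum_div, ← sum_filter]
    refine sum_congr ?_ fun A hA => ?_
    · ext A
      simp only [Web.mem_win, mem_filter, eq_comm]
    · rw [Web.win_congr (mem_filter.1 hA).2]
  rw [sum_congr rfl h1, sum_comm]
  refine sum_congr rfl fun A hA => ?_
  rw [← sum_filter, sum_const, nsmul_eq_mul]
  have h2 : (0 : ℝ) < (W.win f i e A).card := by
    exact_mod_cast card_pos.2 ⟨A, Web.mem_win.2 ⟨hA, rfl⟩⟩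
  change ((W.win f i e A).card : ℝ) * _ = _
  field_simp

theorem avg2 (W : Web τ Φ) (f : Φ) (i j : Fin 3) (e : ℕ) (φ : ℕ → ℕ → ℝ) :
    ∑ B ∈ W.S f i, ∑ B' ∈ W.S f j, (∑ A ∈ W.win f i e B, ∑ A' ∈ W.win f j e B', φ A A') /
      ((W.win f i e B).card * (W.win f j e B').card) =
      ∑ A ∈ W.S f i, ∑ A' ∈ W.S f j, φ A A' := by
  rw [← avg1 W f i e fun A => ∑ A' ∈ W.S f j, φ A A']
  refine sum_congr rfl fun B _ => ?_
  have h1 : ∀ A, ∑ A' ∈ W.S f j, φ A A' =
      ∑ B' ∈ W.S f j, (∑ A' ∈ W.win f j e B', φ A A') / (W.win f j e B').card :=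
    fun A => (avg1 W f j e (φ A)).symm
  rw [sum_congr rfl fun A _ => h1 A, sum_comm, sum_div]
  refine sum_congr rfl fun B' _ => ?_
  rw [← sum_div, div_div, mul_comm]

end VARx

open VARx in
theorem p_VAR (hSUMC : S_SUMC) (hENE : S_ENE) :
    S_VAR := by
  intro τ Φ W F i j h e d Q hij hF hhe hd hQ hbad
  classical
  rw [← (hENE W F i j hij hF).2 h e hhe]
  rcases Q.eq_empty_or_nonempty with rfl | ⟨t0, ht0⟩
  · simp only [card_empty, Nat.cast_zero, mul_zero]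
    positivity
  have hom : 0 ≤ W.om := W.om_nonneg (W.fib t0)
  obtain ⟨VA, hVA⟩ : ∃ VA : Φ → ℕ → ℕ → ℝ, VA = fun f B B' => ∑ A ∈ W.win f i e B,
    ∑ A' ∈ W.win f j e B', (W.dn f i j h A A' - W.dn f i j e A A') ^ 2 := ⟨_, rfl⟩
  obtain ⟨n, hn⟩ : ∃ n : Φ → ℕ → ℕ → ℝ, n = fun f B B' =>
    ((W.win f i e B).card : ℝ) * (W.win f j e B').card := ⟨_, rfl⟩
  obtain ⟨g, hg⟩ : ∃ g : Φ → ℕ → ℕ → ℝ, g = fun f B B' =>
    if d * W.om ^ 2 * n f B B' < VA f B B' then 1 else 0 := ⟨_, rfl⟩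
  have hg0 : ∀ f B B', 0 ≤ g f B B' := fun f B B' => by
    rw [hg]; dsimp only; split_ifs <;> norm_num
  have hS := hSUMC W F i j e g hF fun f A B A' B' H H' => by
    simp only [hg, hn, hVA, Web.win_congr H, Web.win_congr H']
  have h1 : (Q.card : ℝ) ≤ ∑ t ∈ W.T, g (W.fib t) (W.lab i t) (W.lab j t) := by
    calc (Q.card : ℝ) = ∑ t ∈ Q, g (W.fib t) (W.lab i t) (W.lab j t) := by
          rw [card_eq_sum_ones, Nat.cast_sum]
          refine sum_congr rfl fun t ht => ?_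
          have hb := hbad t ht
          rw [hg]
          dsimp only
          rw [if_pos, Nat.cast_one]
          rw [hn, hVA]
          exact hb
      _ ≤ _ := sum_le_sum_of_subset_of_nonneg hQ fun t _ _ => hg0 _ _ _
  rw [← hS] at h1
  refine (mul_le_mul_of_nonneg_left h1 (mul_nonneg hd hom)).trans ?_
  rw [mul_sum]
  refine sum_le_sum fun f _ => ?_
  rw [← avg2 W f i j e fun A A' => (W.dn f i j h A A' - W.dn f i j e A A') ^ 2, mul_sum]
  refine sum_le_sum fun B hB => ?_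
  rw [mul_sum]
  refine sum_le_sum fun B' hB' => ?_
  have h2 : (0 : ℝ) < (W.win f i e B).card := by
    exact_mod_cast card_pos.2 ⟨B, Web.mem_win.2 ⟨hB, rfl⟩⟩
  have h3 : (0 : ℝ) < (W.win f j e B').card := by
    exact_mod_cast card_pos.2 ⟨B', Web.mem_win.2 ⟨hB', rfl⟩⟩
  rw [hg]
  dsimp only
  split_ifs with hc
  · rw [hn, hVA] at hc
    dsimp only at hc
    rw [le_div_iff₀ (mul_pos h2 h3), mul_one]
    refine le_trans ?_ hc.le
    refine mul_le_mul_of_nonneg_right ?_ (mul_pos h2 h3).le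
    rw [sq, ← mul_assoc]
    exact mul_le_mul_of_nonneg_left (Web.dn_le_om hij) (mul_nonneg hd hom)
  · rw [mul_zero, mul_zero]
    positivity

end Pool.Agent.P.MP_77a832_co.KC
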