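import Pool.Agent.P.MP_77a832_co.KC.TCORE
import Pool.Agent.P.MP_77a832_co.KC.TLOCS
import Pool.Agent.P.MP_77a832_co.KC.TSUMC
import Pool.Agent.P.MP_77a832_co.KC.TENE
import Pool.Agent.P.MP_77a832_co.KC.TVAR
import Pool.Agent.P.MP_77a832_co.KC.TDN
import Pool.Agent.P.MP_77a832_co.KC.TAPX
import Pool.Agent.P.MP_77a832_co.KC.TRECT
import Pool.Agent.P.MP_77a832_co.KC.TPUSH
import Pool.Agent.P.MP_77a832_co.KC.TTHREE
import Pool.Agent.P.MP_77a832_co.KC.TPACK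
import Pool.Agent.P.MP_77a832_co.KC.TRECV
import Pool.Agent.P.MP_77a832_co.KC.TLOC
import Pool.Agent.P.MP_77a832_co.KC.TPAIRA
import Pool.Agent.P.MP_77a832_co.KC.TPAIRB
import Pool.Agent.P.MP_77a832_co.KC.TTRANS
import Pool.Agent.P.MP_77a832_co.KC.TSHIFT
import Pool.Agent.P.MP_77a832_co.KC.TFIN
import Pool.Agent.P.MP_77a832_co.KC.TDET
import Pool.Agent.P.MP_77a832_co.KC.TGOOD

/-! Assembly of the core. -/

set_option autoImplicit false

namespace Pool.Agent.P.MP_77a832_co.KC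

theorem q_SUMC : S_SUMC := p_SUMC p_LOCS
theorem q_ENE : S_ENE := p_ENE q_SUMC
theorem q_GOOD : S_GOOD :=
  p_GOOD q_ENE (p_VAR q_SUMC q_ENE) (p_DN q_SUMC) (p_RECT p_LOCS p_APX)
theorem q_LOC : S_LOC := p_LOC (p_THREE p_PUSH) (p_RECV p_PACK)
theorem q_DET : S_DET := p_DET (p_TRANS p_PUSH) p_SHIFT p_FIN

theorem q_CORE : S_CORE := p_CORE q_GOOD q_LOC p_PAIRA p_PAIRB q_DET

end Pool.Agent.P.MP_77a832_co.KC
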