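import Pool.Agent.P.MP_77a832_co.KC.Defs

/-! Cells, densities, masses of balls; basic facts. -/

set_option autoImplicit false

namespace Pool.Agent.P.MP_77a832_co.KC

open Finset

lemma cls_up {h e A B : ℕ} (he : h ≤ e) (H : A / 16 ^ h = B / 16 ^ h) :
    A / 16 ^ e = B / 16 ^ e := by
  obtain ⟨d, rfl⟩ := Nat.exists_eq_add_of_le he
  rw [pow_add, ← Nat.div_div_eq_div_mul, ← Nat.div_div_eq_div_mul, H]

lemma st_le (e A : ℕ) : A / 16 ^ e * 16 ^ e ≤ A := Nat.div_mul_le_self _ _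

lemma lt_en (e A : ℕ) : A < (A / 16 ^ e + 1) * 16 ^ e := by
  rw [mul_comm]; exact Nat.lt_mul_div_succ _ (by positivity)

lemma cls_of_mem {e A B : ℕ} (h1 : B / 16 ^ e * 16 ^ e ≤ A) (h2 : A < (B / 16 ^ e + 1) * 16 ^ e) :
    A / 16 ^ e = B / 16 ^ e := Nat.div_eq_of_lt_le h1 h2

lemma third (i j : Fin 3) (h : i ≠ j) : ∃ k : Fin 3, k ≠ i ∧ k ≠ j := by
  revert i j; decide

lemma others (j : Fin 3) : ∃ i k : Fin 3, i ≠ j ∧ k ≠ j ∧ i ≠ k := by
  revert j; decide

lemma sum_three {i j k : Fin 3} (hij : i ≠ j) (hik : i ≠ k) (hjk : j ≠ k) (g : Fin 3 → ℝ) :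
    ∑ x, g x = g i + g j + g k := by
  have : (univ : Finset (Fin 3)) = {i, j, k} := by
    revert i j k; decide
  rw [this, sum_insert (by simp [hij, hik]), sum_pair hjk, add_assoc]

namespace Web

variable {τ Φ : Type} (W : Web τ Φ)

open Classical in
/-- tuples of the fibre `f` whose labels `i`, `j` lie in the windows of `B`, `B'` -/
noncomputable def cell (f : Φ) (i j : Fin 3) (e B B' : ℕ) : Finset τ :=
  W.T.filter fun t => W.fib t = f ∧ W.lab i t / 16 ^ e = B / 16 ^ e ∧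
    W.lab j t / 16 ^ e = B' / 16 ^ e

/-- tuples per pair of labels in the cell -/
noncomputable def dn (f : Φ) (i j : Fin 3) (e B B' : ℕ) : ℝ :=
  (W.cell f i j e B B').card / ((W.win f i e B).card * (W.win f j e B').card)

/-- the density of the cell of a tuple -/
noncomputable def dt (i j : Fin 3) (e : ℕ) (t : τ) : ℝ :=
  W.dn (W.fib t) i j e (W.lab i t) (W.lab j t)

/-- energy -/
noncomputable def ener (F : Finset Φ) (i j : Fin 3) (e : ℕ) : ℝ :=
  ∑ f ∈ F, ∑ B ∈ W.S f i, ∑ B' ∈ W.S f j, W.dn f i j e B B' ^ 2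

/-- variance of the fine density on the cell of a tuple -/
noncomputable def va (i j : Fin 3) (h e : ℕ) (t : τ) : ℝ :=
  ∑ B ∈ W.win (W.fib t) i e (W.lab i t), ∑ B' ∈ W.win (W.fib t) j e (W.lab j t),
    (W.dn (W.fib t) i j h B B' - W.dn (W.fib t) i j e B B') ^ 2

open Classical in
/-- mass of a ball inside the window of height `e` of `t` -/
noncomputable def M (i : Fin 3) (e : ℕ) (t : τ) (x r : ℝ) : ℝ :=
  ((W.win (W.fib t) i e (W.lab i t)).filter fun A => |W.E (W.fib t) i A - x| ≤ r).card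

open Classical in
/-- tuples of the cell of `t` with values in two balls -/
noncomputable def rc (i j : Fin 3) (e : ℕ) (t : τ) (x r x' r' : ℝ) : Finset τ :=
  (W.cell (W.fib t) i j e (W.lab i t) (W.lab j t)).filter fun s =>
    |W.v i s - x| ≤ r ∧ |W.v j s - x'| ≤ r'

/-- product formula for all rectangles of the cell -/
def Rect (R : ℝ) (i j : Fin 3) (e : ℕ) (t : τ) : Prop := ∀ x r x' r' : ℝ,
  |((W.rc i j e t x r x' r').card : ℝ) - W.dt i j e t * W.M i e t x r * W.M j e t x' r'| ≤ R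

/-- the ball of radius `R` around the value lies inside the window -/
def Ins (R : ℝ) (i : Fin 3) (e : ℕ) (t : τ) : Prop :=
  W.st i e t ≤ W.v i t - R ∧ W.v i t + R ≤ W.en i e t

/-- the longest of the three windows of height `h` -/
noncomputable def ll (h : ℕ) (t : τ) : ℝ := max (W.len 0 h t) (max (W.len 1 h t) (W.len 2 h t))

/-- good tuples -/
structure Good (D ka b R : ℝ) (h0 e : ℕ) (t : τ) : Prop where
  mem : t ∈ W.T
  lo : ∀ i h, h0 ≤ h → h ≤ e → W.Lo D i h t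
  up : ∀ i h, h0 ≤ h → h ≤ e → W.Up D i h t
  bd : ∀ i, W.Bd b i e t
  dn : ∀ i j, i ≠ j → ka * W.om ≤ W.dt i j e t
  rect : ∀ i j, i ≠ j → W.Rect R i j e t

variable {W} {f : Φ} {i j k : Fin 3} {e h A B B' : ℕ} {s t : τ}

lemma mem_win : A ∈ W.win f i e B ↔ A ∈ W.S f i ∧ A / 16 ^ e = B / 16 ^ e := by
  simp [win]

lemma mem_cell : t ∈ W.cell f i j e B B' ↔ t ∈ W.T ∧ W.fib t = f ∧
    W.lab i t / 16 ^ e = B / 16 ^ e ∧ W.lab j t / 16 ^ e = B' / 16 ^ e := by
  simp [cell]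

lemma mem_rc {x r x' r' : ℝ} : s ∈ W.rc i j e t x r x' r' ↔ s ∈ W.T ∧ W.fib s = W.fib t ∧
    W.lab i s / 16 ^ e = W.lab i t / 16 ^ e ∧ W.lab j s / 16 ^ e = W.lab j t / 16 ^ e ∧
    |W.v i s - x| ≤ r ∧ |W.v j s - x'| ≤ r' := by
  simp only [rc, mem_filter, mem_cell]; tauto

lemma win_congr (H : A / 16 ^ e = B / 16 ^ e) : W.win f i e A = W.win f i e B := by
  simp only [win, H]

lemma cell_congr {A' : ℕ} (H : A / 16 ^ e = B / 16 ^ e) (H' : A' / 16 ^ e = B' / 16 ^ e) :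
    W.cell f i j e A A' = W.cell f i j e B B' := by
  ext t; rw [mem_cell, mem_cell, H, H']

lemma dn_congr {A' : ℕ} (H : A / 16 ^ e = B / 16 ^ e) (H' : A' / 16 ^ e = B' / 16 ^ e) :
    W.dn f i j e A A' = W.dn f i j e B B' := by
  simp only [dn, cell_congr H H', win_congr H, win_congr H']

lemma win_mono (he : h ≤ e) : W.win f i h B ⊆ W.win f i e B :=
  fun _ hA => mem_win.2 ⟨(mem_win.1 hA).1, cls_up he (mem_win.1 hA).2⟩

lemma lab_mem_win (ht : t ∈ W.T) : W.lab i t ∈ W.win (W.fib t) i e (W.lab i t) :=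
  mem_win.2 ⟨W.mem t ht i, rfl⟩

lemma one_le_N (ht : t ∈ W.T) : 1 ≤ W.N i e t := by
  unfold N; exact_mod_cast card_pos.2 ⟨_, lab_mem_win ht⟩

lemma N_nonneg : 0 ≤ W.N i e t := Nat.cast_nonneg _

lemma M_nonneg {x r : ℝ} : 0 ≤ W.M i e t x r := Nat.cast_nonneg _

lemma M_le_N {x r : ℝ} : W.M i e t x r ≤ W.N i e t := by
  unfold M N; exact_mod_cast card_filter_le _ _

lemma M_mono {x r r' : ℝ} (H : r ≤ r') : W.M i e t x r ≤ W.M i e t x r' := by
  unfold M
  exact_mod_cast card_le_card fun A hA => by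
    simp only [mem_filter] at hA ⊢; exact ⟨hA.1, hA.2.trans H⟩

lemma M_congr {x r : ℝ} (hf : W.fib s = W.fib t) (H : W.lab i s / 16 ^ e = W.lab i t / 16 ^ e) :
    W.M i e s x r = W.M i e t x r := by
  simp only [M, hf, win_congr H]

lemma N_congr (hf : W.fib s = W.fib t) (H : W.lab i s / 16 ^ e = W.lab i t / 16 ^ e) :
    W.N i e s = W.N i e t := by
  simp only [N, hf, win_congr H]

lemma len_congr (hf : W.fib s = W.fib t) (H : W.lab i s / 16 ^ e = W.lab i t / 16 ^ e) :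
    W.len i e s = W.len i e t := by
  simp only [len, st, en, hf, H]

lemma dn_nonneg : 0 ≤ W.dn f i j e B B' := by unfold dn; positivity

lemma dt_nonneg : 0 ≤ W.dt i j e t := dn_nonneg

lemma om_nonneg (W : Web τ Φ) (f : Φ) : 0 ≤ W.om := by
  simpa using W.pair f 0 1 (by decide) 0 0 ∅ (empty_subset _) (by simp)

lemma one_le_om (ht : t ∈ W.T) : 1 ≤ W.om := by
  simpa using W.pair (W.fib t) 0 1 (by decide) (W.lab 0 t) (W.lab 1 t) {t} (by simpa using ht)
    (by simp)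

lemma st_lt_v (ht : t ∈ W.T) : W.st i e t < W.v i t :=
  (W.mono _ _ (st_le _ _)).trans_lt (W.lo t ht i)

lemma v_lt_en (ht : t ∈ W.T) : W.v i t < W.en i e t :=
  (W.hi t ht i).trans_le (W.mono _ _ (lt_en _ _))

lemma len_pos (ht : t ∈ W.T) : 0 < W.len i e t :=
  sub_pos.2 ((st_lt_v ht).trans (v_lt_en ht))

lemma st_le_E (hA : A / 16 ^ e = W.lab i t / 16 ^ e) : W.st i e t ≤ W.E (W.fib t) i A := by
  unfold st; rw [← hA]; exact W.mono _ _ (st_le _ _)

lemma E_succ_le_en (hA : A / 16 ^ e = W.lab i t / 16 ^ e) :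
    W.E (W.fib t) i (A + 1) ≤ W.en i e t := by
  unfold en; rw [← hA]; exact W.mono _ _ (lt_en _ _)

lemma E_le_en (hA : A / 16 ^ e = W.lab i t / 16 ^ e) : W.E (W.fib t) i A ≤ W.en i e t :=
  (W.mono _ _ (Nat.le_succ _)).trans (E_succ_le_en hA)

lemma len_le_ll : W.len i h t ≤ W.ll h t := by
  unfold ll
  fin_cases i
  · exact le_max_left _ _
  · exact le_max_of_le_right (le_max_left _ _)
  · exact le_max_of_le_right (le_max_right _ _)

lemma ll_eq (W : Web τ Φ) (h : ℕ) (t : τ) : ∃ j, W.ll h t = W.len j h t := by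
  unfold ll
  rcases max_choice (W.len 0 h t) (max (W.len 1 h t) (W.len 2 h t)) with H | H
  · exact ⟨0, H⟩
  · rcases max_choice (W.len 1 h t) (W.len 2 h t) with H' | H'
    · exact ⟨1, H.trans H'⟩
    · exact ⟨2, H.trans H'⟩

lemma ll_pos (ht : t ∈ W.T) : 0 < W.ll h t := (len_pos (i := 0) ht).trans_le len_le_ll

lemma sg_sq (W : Web τ Φ) (f : Φ) (i : Fin 3) : W.sg f i * W.sg f i = 1 := by
  rcases W.sgn f i with H | H <;> rw [H] <;> norm_num

lemma abs_sg_mul (W : Web τ Φ) (f : Φ) (i : Fin 3) (x : ℝ) : |W.sg f i * x| = |x| := by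
  rcases W.sgn f i with H | H <;> rw [H] <;> simp

lemma rel (ht : t ∈ W.T) (hij : i ≠ j) (hik : i ≠ k) (hjk : j ≠ k) :
    W.sg (W.fib t) i * W.v i t + W.sg (W.fib t) j * W.v j t + W.sg (W.fib t) k * W.v k t = 0 := by
  rw [← W.sum t ht, sum_three hij hik hjk]

/-- triangle inequality against any triple with the relation -/
lemma tri (hs : s ∈ W.T) (hij : i ≠ j) (hik : i ≠ k) (hjk : j ≠ k) {x y z : ℝ}
    (H : W.sg (W.fib s) i * x + W.sg (W.fib s) j * y + W.sg (W.fib s) k * z = 0) :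
    |W.v k s - z| ≤ |W.v i s - x| + |W.v j s - y| := by
  have h1 := rel hs hij hik hjk
  rw [← W.abs_sg_mul (W.fib s) k, ← W.abs_sg_mul (W.fib s) i (_ - _),
    ← W.abs_sg_mul (W.fib s) j (_ - _)]
  have : W.sg (W.fib s) k * (W.v k s - z) =
      -(W.sg (W.fib s) i * (W.v i s - x) + W.sg (W.fib s) j * (W.v j s - y)) := by
    linear_combination h1 - H
  rw [this, abs_neg]
  exact abs_add_le _ _

lemma tri' (hs : s ∈ W.T) (ht : t ∈ W.T) (hf : W.fib s = W.fib t) (hij : i ≠ j) (hik : i ≠ k)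
    (hjk : j ≠ k) : |W.v k s - W.v k t| ≤ |W.v i s - W.v i t| + |W.v j s - W.v j t| :=
  tri hs hij hik hjk (by rw [hf]; exact rel ht hij hik hjk)

/-- a ball that contains a small window has at least its mass -/
lemma strip (hs : s ∈ W.T) (hf : W.fib s = W.fib t) (H : W.lab i s / 16 ^ e = W.lab i t / 16 ^ e)
    (he : h ≤ e) {r : ℝ} (hr : W.len i h s ≤ r) : W.N i h s ≤ W.M i e t (W.v i s) r := by
  rw [← M_congr hf H]
  unfold N M
  exact_mod_cast card_le_card fun A hA => by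
    refine mem_filter.2 ⟨win_mono he hA, ?_⟩
    have h1 := st_le_E (W := W) (mem_win.1 hA).2
    have h2 := E_le_en (W := W) (mem_win.1 hA).2
    have h3 := st_lt_v (i := i) (e := h) hs
    have h4 := v_lt_en (i := i) (e := h) hs
    unfold len at hr
    rw [abs_le]; constructor <;> linarith

/-- a tuple of the fibre whose value is in a ball inside the window has its label there -/
lemma Ins.cls {R : ℝ} (H : W.Ins R i e t) (hs : s ∈ W.T) (hf : W.fib s = W.fib t)
    (hv : |W.v i s - W.v i t| ≤ R) : W.lab i s / 16 ^ e = W.lab i t / 16 ^ e := by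
  obtain ⟨h1, h2⟩ := H
  obtain ⟨h3, h4⟩ := abs_le.1 hv
  have h5 := W.lo s hs i
  have h6 := W.hi s hs i
  rw [hf] at h5 h6
  unfold st at h1
  unfold en at h2
  apply cls_of_mem
  · exact Nat.lt_succ_iff.1 ((W.mono _ _).reflect_lt (by linarith))
  · exact (W.mono _ _).reflect_lt (by linarith)

/-- a light ball lies inside the window -/
lemma Bd.ins {b R : ℝ} (H : W.Bd b i e t) (ht : t ∈ W.T)
    (hM : W.M i e t (W.v i t) R < b * 2 ^ e) : W.Ins R i e t := by
  have h5 := W.lo t ht i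
  have h6 := W.hi t ht i
  have h3 := st_lt_v (i := i) (e := e) ht
  have h4 := v_lt_en (i := i) (e := e) ht
  constructor
  · by_contra hc
    refine absurd (H.1.trans ?_) (not_le.2 hM)
    unfold M
    exact_mod_cast card_le_card fun A hA => by
      obtain ⟨hA, hlt⟩ := mem_filter.1 hA
      refine mem_filter.2 ⟨hA, ?_⟩
      have h1 := st_le_E (W := W) (mem_win.1 hA).2
      have h2 := W.mono (W.fib t) i hlt.le
      rw [abs_le]; constructor <;> linarith [not_le.1 hc]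
  · by_contra hc
    refine absurd (H.2.trans ?_) (not_le.2 hM)
    unfold M
    exact_mod_cast card_le_card fun A hA => by
      obtain ⟨hA, hlt⟩ := mem_filter.1 hA
      refine mem_filter.2 ⟨hA, ?_⟩
      have h1 := E_le_en (W := W) (mem_win.1 hA).2
      have h2 : W.E (W.fib t) i (W.lab i t + 1) ≤ W.E (W.fib t) i A := W.mono _ _ hlt
      rw [abs_le]; constructor <;> linarith [not_le.1 hc]

/-- counting tuples by two labels -/
lemma card_le_om (hij : i ≠ j) {Q : Finset τ} (hQ : Q ⊆ W.T) (X Y : Finset ℕ)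
    (H : ∀ t ∈ Q, W.fib t = f ∧ W.lab i t ∈ X ∧ W.lab j t ∈ Y) :
    (Q.card : ℝ) ≤ W.om * X.card * Y.card := by
  have h1 : Q.card = ∑ p ∈ X ×ˢ Y, (Q.filter fun t => (W.lab i t, W.lab j t) = p).card :=
    card_eq_sum_card_fiberwise fun t ht => by
      simpa using ⟨(H t ht).2.1, (H t ht).2.2⟩
  rw [h1, Nat.cast_sum]
  calc _ ≤ ∑ _p ∈ X ×ˢ Y, W.om := sum_le_sum fun p _ =>
        W.pair f i j hij p.1 p.2 _ ((filter_subset _ _).trans hQ) fun t ht => by
          obtain ⟨h2, h3⟩ := mem_filter.1 ht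
          exact ⟨(H t h2).1, by rw [← h3], by rw [← h3]⟩
    _ = _ := by rw [sum_const, card_product, nsmul_eq_mul]; push_cast; ring

lemma dn_le_om (hij : i ≠ j) : W.dn f i j e B B' ≤ W.om := by
  unfold dn
  refine div_le_of_le_mul₀ (by positivity) (W.om_nonneg f) ?_
  rw [← mul_assoc]
  refine card_le_om (f := f) hij (fun t ht => (mem_cell.1 ht).1) _ _ fun t ht => ?_
  obtain ⟨h1, h2, h3, h4⟩ := mem_cell.1 ht
  exact ⟨h2, mem_win.2 ⟨h2 ▸ W.mem t h1 i, h3⟩, mem_win.2 ⟨h2 ▸ W.mem t h1 j, h4⟩⟩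

lemma dt_le_om (hij : i ≠ j) : W.dt i j e t ≤ W.om := dn_le_om hij

end Web

end Pool.Agent.P.MP_77a832_co.KC
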