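import Mathlib

/-! Abstract core: three families of labels with an additive relation, fibre by fibre. -/

set_option autoImplicit false

namespace Pool.Agent.P.MP_77a832_co.KC

open Finset

/-- Tuples `t ∈ T` lie in a fibre and carry three labels and three values. -/
structure Web (τ Φ : Type) where
  T : Finset τ
  fib : τ → Φ
  lab : Fin 3 → τ → ℕ
  v : Fin 3 → τ → ℝ
  E : Φ → Fin 3 → ℕ → ℝ
  S : Φ → Fin 3 → Finset ℕ
  sg : Φ → Fin 3 → ℝ
  J : ℕ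
  om : ℝ
  mono : ∀ f i, Monotone (E f i)
  lo : ∀ t ∈ T, ∀ i, E (fib t) i (lab i t) < v i t
  hi : ∀ t ∈ T, ∀ i, v i t < E (fib t) i (lab i t + 1)
  mem : ∀ t ∈ T, ∀ i, lab i t ∈ S (fib t) i
  lt : ∀ f i, ∀ B ∈ S f i, B < 16 ^ J
  sgn : ∀ f i, sg f i = 1 ∨ sg f i = -1
  sum : ∀ t ∈ T, ∑ i, sg (fib t) i * v i t = 0
  pair : ∀ (f : Φ) (i j : Fin 3), i ≠ j → ∀ (B B' : ℕ) (Q : Finset τ), Q ⊆ T →
    (∀ t ∈ Q, fib t = f ∧ lab i t = B ∧ lab j t = B') → (Q.card : ℝ) ≤ om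

namespace Web

variable {τ Φ : Type} (W : Web τ Φ)

/-- labels of the fibre `f` in the window of height `e` around `B` -/
def win (f : Φ) (i : Fin 3) (e B : ℕ) : Finset ℕ :=
  (W.S f i).filter fun A => A / 16 ^ e = B / 16 ^ e

/-- number of visits of the window of height `e` -/
def N (i : Fin 3) (e : ℕ) (t : τ) : ℝ := (W.win (W.fib t) i e (W.lab i t)).card

/-- start of the window of height `e` -/
def st (i : Fin 3) (e : ℕ) (t : τ) : ℝ := W.E (W.fib t) i (W.lab i t / 16 ^ e * 16 ^ e)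

/-- end of the window of height `e` -/
def en (i : Fin 3) (e : ℕ) (t : τ) : ℝ := W.E (W.fib t) i ((W.lab i t / 16 ^ e + 1) * 16 ^ e)

/-- length of the window of height `e` -/
def len (i : Fin 3) (e : ℕ) (t : τ) : ℝ := W.en i e t - W.st i e t

/-- not few visits -/
def Lo (D : ℝ) (i : Fin 3) (e : ℕ) (t : τ) : Prop := 2 ^ e ≤ D * W.N i e t

/-- not many visits -/
def Up (D : ℝ) (i : Fin 3) (e : ℕ) (t : τ) : Prop := W.N i e t ≤ D * 2 ^ e

/-- many visits before and after the label -/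
def Bd (b : ℝ) (i : Fin 3) (e : ℕ) (t : τ) : Prop :=
  b * 2 ^ e ≤ (((W.win (W.fib t) i e (W.lab i t)).filter fun A => A < W.lab i t).card : ℝ) ∧
  b * 2 ^ e ≤ (((W.win (W.fib t) i e (W.lab i t)).filter fun A => W.lab i t < A).card : ℝ)

/-- no window of height `h` inside the window of height `e` is heavy -/
def At (a : ℝ) (i : Fin 3) (h e : ℕ) (t : τ) : Prop :=
  ∀ u : ℕ, (((W.win (W.fib t) i e (W.lab i t)).filter fun A => A / 16 ^ h = u).card : ℝ) ≤ a * 2 ^ e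

/-- the window of height `h` is short inside the window of height `h + k` -/
def Por (m : ℝ) (i : Fin 3) (h k : ℕ) (t : τ) : Prop := m * W.len i h t ≤ W.len i (h + k) t

/-- a typical tuple at height `e`, with `y = 2 ^ w` -/
def Typ (w e : ℕ) (t : τ) : Prop := ∀ i : Fin 3,
  (∀ h, e ≤ h + 139 * w → h ≤ e → W.Lo (2 ^ (4 * w)) i h t ∧ W.Up (2 ^ (4 * w)) i h t) ∧
  W.Bd (1 / 2 ^ w) i e t ∧ W.At (1 / 2 ^ (310 * w)) i (e - 1569 * w) e t ∧
  ∀ h, e ≤ h + 139 * w → h + 5 * w ≤ e → W.Por (2 ^ (15 * w)) i h (5 * w) t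

end Web

/-- The core statement. `F` is any finite set that contains the fibres. -/
def S_CORE : Prop := ∀ {τ Φ : Type} (W : Web τ Φ) (F : Finset Φ) (w e0 : ℕ), 10 ≤ w →
  W.T.Nonempty → (∀ t ∈ W.T, W.fib t ∈ F) → 1569 * w ≤ e0 → 4 * W.J + 556 * w ≤ 5 * e0 →
  (∀ i j : Fin 3, i ≠ j →
    100 * W.om * ∑ f ∈ F, ((W.S f i).card * (W.S f j).card : ℝ) ≤ 2 ^ w * W.T.card) →
  (∀ e, e0 ≤ e → e ≤ e0 + 1569 * w * 2 ^ (630 * w) → ∀ Q ⊆ W.T, (∀ t ∈ Q, ¬ W.Typ w e t) →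
    8 * Q.card ≤ W.T.card) → False

end Pool.Agent.P.MP_77a832_co.KC
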