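import Pool.Agent.P.MP_77a832_co.KC.Base

/-! Steps of the core argument. -/

set_option autoImplicit false

namespace Pool.Agent.P.MP_77a832_co.KC

open Finset

-- deps:
/-- Sums over pairs of labels weighted by the density are sums over tuples. -/
def S_LOCS : Prop := ∀ {τ Φ : Type} (W : Web τ Φ) (f : Φ) (i j : Fin 3) (h : ℕ) (X Y : Finset ℕ)
  (Q : Finset τ) (g : ℕ → ℕ → ℝ), X ⊆ W.S f i → Y ⊆ W.S f j →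
  (∀ B ∈ X, W.win f i h B ⊆ X) → (∀ B ∈ Y, W.win f j h B ⊆ Y) →
  (∀ t, t ∈ Q ↔ t ∈ W.T ∧ W.fib t = f ∧ W.lab i t ∈ X ∧ W.lab j t ∈ Y) →
  (∀ A B A' B', A / 16 ^ h = B / 16 ^ h → A' / 16 ^ h = B' / 16 ^ h → g A A' = g B B') →
  ∑ B ∈ X, ∑ B' ∈ Y, W.dn f i j h B B' * g B B' = ∑ t ∈ Q, g (W.lab i t) (W.lab j t)

-- deps: LOCS
/-- The same over all fibres. -/
def S_SUMC : Prop := ∀ {τ Φ : Type} (W : Web τ Φ) (F : Finset Φ) (i j : Fin 3) (h : ℕ)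
  (g : Φ → ℕ → ℕ → ℝ), (∀ t ∈ W.T, W.fib t ∈ F) →
  (∀ f A B A' B', A / 16 ^ h = B / 16 ^ h → A' / 16 ^ h = B' / 16 ^ h → g f A A' = g f B B') →
  ∑ f ∈ F, ∑ B ∈ W.S f i, ∑ B' ∈ W.S f j, W.dn f i j h B B' * g f B B' =
    ∑ t ∈ W.T, g (W.fib t) (W.lab i t) (W.lab j t)

-- deps: SUMC
/-- Energy: bound and increment. -/
def S_ENE : Prop := ∀ {τ Φ : Type} (W : Web τ Φ) (F : Finset Φ) (i j : Fin 3), i ≠ j →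
  (∀ t ∈ W.T, W.fib t ∈ F) → (∀ e, W.ener F i j e ≤ W.om * W.T.card) ∧
  ∀ h e, h ≤ e → ∑ f ∈ F, ∑ B ∈ W.S f i, ∑ B' ∈ W.S f j,
    (W.dn f i j h B B' - W.dn f i j e B B') ^ 2 = W.ener F i j h - W.ener F i j e

-- deps: SUMC ENE
/-- Few tuples lie in cells of large variance. -/
def S_VAR : Prop := ∀ {τ Φ : Type} (W : Web τ Φ) (F : Finset Φ) (i j : Fin 3) (h e : ℕ) (d : ℝ)
  (Q : Finset τ), i ≠ j → (∀ t ∈ W.T, W.fib t ∈ F) → h ≤ e → 0 ≤ d → Q ⊆ W.T →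
  (∀ t ∈ Q, d * W.om ^ 2 * (W.N i e t * W.N j e t) < W.va i j h e t) →
  d * W.om * Q.card ≤ W.ener F i j h - W.ener F i j e

-- deps: SUMC
/-- Few tuples lie in cells of small density. -/
def S_DN : Prop := ∀ {τ Φ : Type} (W : Web τ Φ) (F : Finset Φ) (i j : Fin 3) (e : ℕ) (c : ℝ)
  (Q : Finset τ), (∀ t ∈ W.T, W.fib t ∈ F) → 0 ≤ c → Q ⊆ W.T → (∀ t ∈ Q, W.dt i j e t < c) →
  (Q.card : ℝ) ≤ c * ∑ f ∈ F, ((W.S f i).card * (W.S f j).card : ℝ)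

-- deps:
/-- Approximation of a ball by whole windows of height `h`. -/
def S_APX : Prop := ∀ {τ Φ : Type} (W : Web τ Φ) (i : Fin 3) (h e : ℕ) (t : τ) (a x r : ℝ),
  h ≤ e → W.At a i h e t → ∃ X P : Finset ℕ, X ⊆ W.win (W.fib t) i e (W.lab i t) ∧
    (∀ B ∈ X, W.win (W.fib t) i h B ⊆ X) ∧ (P.card : ℝ) ≤ 2 * a * 2 ^ e ∧
    (X.card : ℝ) ≤ W.M i e t x r ∧ W.M i e t x r ≤ X.card + 2 * a * 2 ^ e ∧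
    ∀ s ∈ W.T, W.fib s = W.fib t → W.lab i s / 16 ^ e = W.lab i t / 16 ^ e →
      (W.lab i s ∈ X → |W.v i s - x| ≤ r) ∧ (|W.v i s - x| ≤ r → W.lab i s ∈ X ∨ W.lab i s ∈ P)

-- deps: LOCS APX
/-- Small variance gives the product formula. -/
def S_RECT : Prop := ∀ {τ Φ : Type} (W : Web τ Φ) (i j : Fin 3) (h e : ℕ) (t : τ) (de D a : ℝ),
  i ≠ j → h ≤ e → 0 ≤ de → W.va i j h e t ≤ de ^ 2 * W.om ^ 2 * (W.N i e t * W.N j e t) →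
  W.Up D i e t → W.Up D j e t → W.At a i h e t → W.At a j h e t →
  W.Rect (W.om * (2 ^ e) ^ 2 * (de * D ^ 2 + 4 * a * D)) i j e t

-- deps:
/-- Transfer of mass through a strip. -/
def S_PUSH : Prop := ∀ {τ Φ : Type} (W : Web τ Φ) (i j k : Fin 3) (e : ℕ) (t : τ)
  (R ρ x y z r r' : ℝ), i ≠ j → i ≠ k → j ≠ k → W.Rect R j i e t → W.Rect R j k e t →
  W.Ins ρ k e t → W.sg (W.fib t) i * y + W.sg (W.fib t) j * x + W.sg (W.fib t) k * z = 0 →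
  |z - W.v k t| + (r + r') ≤ ρ →
  W.dt j i e t * W.M j e t x r * W.M i e t y r' ≤
    W.dt j k e t * W.M j e t x r * W.M k e t z (r + r') + 2 * R

-- deps: PUSH
/-- One heavy ball makes all three balls heavy. -/
def S_THREE : Prop := ∀ {τ Φ : Type} (W : Web τ Φ) (h0 h e : ℕ) (t : τ) (D ka b R T ze : ℝ)
  (i k : Fin 3), W.Good D ka b R h0 e t → h0 ≤ h → h ≤ e → 0 ≤ T → 0 < ze → 0 < ka → ka ≤ 1 →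
  ka * ze / 2 ≤ b → 4 * R * D ≤ ka * ze * W.om * 2 ^ e * 2 ^ h →
  ze * 2 ^ e < W.M i e t (W.v i t) (T * W.ll h t) →
  ka * ze * 2 ^ e / 2 ≤ W.M k e t (W.v k t) ((T + 1) * W.ll h t)

-- deps:
/-- Packing of long intervals near a point. -/
def S_PACK : Prop := ∀ (G : ℕ → ℝ) (b r T : ℝ) (U : Finset ℕ), Monotone G → 0 ≤ r → 0 ≤ T →
  (∀ u ∈ U, G u - b ≤ 2 * r ∧ b - G (u + 1) ≤ 2 * r ∧ r ≤ T * (G (u + 1) - G u) ∧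
    G u < G (u + 1)) → (U.card : ℝ) ≤ 4 * T + 2

-- deps: PACK
/-- A tuple receives mass from few tuples. -/
def S_RECV : Prop := ∀ {τ Φ : Type} (W : Web τ Φ) (i j : Fin 3) (h e : ℕ) (s : τ) (D T : ℝ)
  (Q : Finset τ), i ≠ j → 0 ≤ D → 0 ≤ T → Q ⊆ W.T →
  (∀ t ∈ Q, W.fib t = W.fib s ∧ W.lab i t / 16 ^ e = W.lab i s / 16 ^ e ∧
    |W.v j t - W.v j s| ≤ 2 * |W.v i t - W.v i s| ∧ |W.v i t - W.v i s| ≤ T * W.len j h t ∧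
    W.Up D i e t ∧ W.Up D j h t) →
  (Q.card : ℝ) ≤ W.om * (D * 2 ^ h) * (D * 2 ^ e * (4 * T + 2) + 2 * 16 ^ (W.J - h))

-- deps: THREE RECV
/-- Mass transport: few good tuples have a heavy ball. -/
def S_LOC : Prop := ∀ {τ Φ : Type} (W : Web τ Φ) (h0 h e : ℕ) (D ka b R T ze : ℝ) (Q : Finset τ),
  h0 ≤ h → h ≤ e → 0 ≤ D → 0 ≤ T → 0 < ze → 0 < ka → ka ≤ 1 → ka * ze / 2 ≤ b →
  4 * R * D ≤ ka * ze * W.om * 2 ^ e * 2 ^ h → 8 * R ≤ ka ^ 3 * ze ^ 2 * W.om * (2 ^ e) ^ 2 →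
  (16 : ℝ) ^ (W.J - h) ≤ 2 ^ e →
  (∀ t ∈ Q, W.Good D ka b R h0 e t ∧ ∃ i, ze * 2 ^ e < W.M i e t (W.v i t) (T * W.ll h t)) →
  ka ^ 3 * ze ^ 2 * 2 ^ e * Q.card ≤ 48 * D * 2 ^ h * (D * (4 * T + 6) + 2) * W.T.card

-- deps:
/-- Counting tuples by windows of the first label. -/
def S_PAIRA : Prop := ∀ {τ Φ : Type} (W : Web τ Φ) (F : Finset Φ) (h : ℕ) (D la : ℝ)
  (G : Finset τ), 0 ≤ D → 0 ≤ la → G ⊆ W.T → (∀ t ∈ G, W.fib t ∈ F ∧ W.Lo D 0 h t) →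
  (∀ t ∈ G, ∀ X : Finset ℕ, (∀ B ∈ X, ∃ s ∈ G, W.fib s = W.fib t ∧
    W.lab 0 s / 16 ^ h = W.lab 0 t / 16 ^ h ∧ W.lab 0 s = B) → (X.card : ℝ) ≤ la) →
  (G.card : ℝ) * 2 ^ h ≤ D * la * (W.om * ∑ f ∈ F, ((W.S f 0).card * (W.S f 1).card : ℝ))

-- deps:
/-- Many labels in one window give two far values. -/
def S_PAIRB : Prop := ∀ {τ Φ : Type} (W : Web τ Φ) (h h2 e : ℕ) (T mu : ℝ) (G : Finset τ) (t0 : τ)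
  (X : Finset ℕ), h ≤ e → G ⊆ W.T → (∀ t ∈ G, W.M 0 e t (W.v 0 t) (T * W.ll h2 t) ≤ mu) →
  (∀ B ∈ X, ∃ s ∈ G, W.fib s = W.fib t0 ∧ W.lab 0 s / 16 ^ h = W.lab 0 t0 / 16 ^ h ∧
    W.lab 0 s = B) → 0 ≤ mu → mu + 1 < X.card →
  ∃ t ∈ G, ∃ s ∈ G, W.fib s = W.fib t ∧ W.lab 0 s / 16 ^ h = W.lab 0 t / 16 ^ h ∧
    W.ll h2 s ≤ W.ll h2 t ∧ T * W.ll h2 t < |W.v 0 s - W.v 0 t|

-- deps: PUSH
/-- Almost invariance under one translation. -/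
def S_TRANS : Prop := ∀ {τ Φ : Type} (W : Web τ Φ) (e : ℕ) (t : τ)
  (R c ρ mu a0 a1 s y y' r : ℝ), t ∈ W.T → W.Rect R 0 1 e t → W.Rect R 0 2 e t → 0 < c →
  c ≤ W.dt 0 1 e t → W.Ins ρ 1 e t → W.Ins ρ 2 e t → 0 < mu → mu ≤ W.M 0 e t a0 s →
  mu ≤ W.M 0 e t a1 s → y' = y + W.sg (W.fib t) 1 * W.sg (W.fib t) 0 * (a0 - a1) →
  |a0 - W.v 0 t| + |y - W.v 1 t| + (s + r) ≤ ρ → |y' - W.v 1 t| + (r + 2 * s) ≤ ρ →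
  W.M 1 e t y r ≤ W.M 1 e t y' (r + 2 * s) + 4 * R / (c * mu)

-- deps:
/-- Many translations. -/
def S_SHIFT : Prop := ∀ {τ Φ : Type} (W : Web τ Φ) (e m : ℕ) (t : τ) (b d s er : ℝ)
  (Z : Finset ℕ), 0 ≤ s → 0 ≤ er → 8 * m * s < |d| →
  (∀ y r, 0 ≤ r → |y - b| + |d| + (r + 2 * s) ≤ (m + 1) * |d| →
    W.M 1 e t y r ≤ W.M 1 e t (y + d) (r + 2 * s) + er) →
  2 * m * er ≤ W.M 1 e t b (|d| / 4) →
  (∀ A ∈ W.win (W.fib t) 1 e (W.lab 1 t), ∀ u : ℝ, 1 / 2 < u → u < m + 1 →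
    W.E (W.fib t) 1 A = b + u * d → A ∈ Z) →
  m * W.M 1 e t b (|d| / 4) / 2 ≤ Z.card

-- deps:
/-- The contradiction with porosity. -/
def S_FIN : Prop := ∀ {τ Φ : Type} (W : Web τ Φ) (h0 e k : ℕ) (t : τ) (D m m' d : ℝ),
  t ∈ W.T → 1 ≤ D → 0 < d → 0 ≤ m → (∀ h, h0 ≤ h → h ≤ e → W.Lo D 1 h t ∧ W.Up D 1 h t) →
  (∀ h, h0 ≤ h → h + k ≤ e → W.Por m' 1 h k t) → 2 ^ h0 ≤ D * W.M 1 e t (W.v 1 t) (d / 4) →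
  2 * D * 2 ^ k * W.M 1 e t (W.v 1 t) (d / 4) ≤ 2 ^ e → 4 * D ^ 2 * 2 ^ k < m →
  8 * (m + 1) ≤ m' →
  (∀ σ : ℝ, σ = 1 ∨ σ = -1 → ∀ Z : Finset ℕ, (∀ A ∈ W.win (W.fib t) 1 e (W.lab 1 t), ∀ u : ℝ,
    1 / 2 < u → u < m + 1 → W.E (W.fib t) 1 A = W.v 1 t + u * (σ * d) → A ∈ Z) →
    m * W.M 1 e t (W.v 1 t) (d / 4) / 2 ≤ Z.card) → False

-- deps: TRANS SHIFT FIN
/-- Two far good tuples in one window are impossible. -/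
def S_DET : Prop := ∀ {τ Φ : Type} (W : Web τ Φ) (h0 h1 e k m : ℕ) (t s : τ)
  (D ka b R T ze m' : ℝ), W.Good D ka b R h0 e t → W.Good D ka b R h0 e s → h0 ≤ e → h1 ≤ e →
  W.fib s = W.fib t → W.lab 0 s / 16 ^ h1 = W.lab 0 t / 16 ^ h1 → W.ll h0 s ≤ W.ll h0 t →
  T * W.ll h0 t < |W.v 0 s - W.v 0 t| →
  (∀ i, W.M i e t (W.v i t) (T * W.ll h1 t) ≤ ze * 2 ^ e) → ze < b →
  (∀ h, h0 ≤ h → h + k ≤ e → W.Por m' 1 h k t) → 1 ≤ D → 0 < ka → 0 ≤ R → 1 ≤ m →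
  8 * (m : ℝ) ≤ T → 8 * m * R * D ^ 2 ≤ ka * W.om * (2 ^ h0) ^ 2 → 2 * D * 2 ^ k * ze ≤ 1 →
  4 * D ^ 2 * 2 ^ k < m → 8 * ((m : ℝ) + 1) ≤ m' → False

-- deps: ENE VAR DN RECT
/-- Choice of the height: most tuples are good. -/
def S_GOOD : Prop := ∀ {τ Φ : Type} (W : Web τ Φ) (F : Finset Φ) (w e0 : ℕ), 10 ≤ w →
  W.T.Nonempty → (∀ t ∈ W.T, W.fib t ∈ F) → 1569 * w ≤ e0 →
  (∀ i j : Fin 3, i ≠ j →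
    100 * W.om * ∑ f ∈ F, ((W.S f i).card * (W.S f j).card : ℝ) ≤ 2 ^ w * W.T.card) →
  (∀ e, e0 ≤ e → e ≤ e0 + 1569 * w * 2 ^ (630 * w) → ∀ Q ⊆ W.T, (∀ t ∈ Q, ¬ W.Typ w e t) →
    8 * Q.card ≤ W.T.card) →
  ∃ e, e0 ≤ e ∧ ∃ G : Finset τ, 3 * W.T.card ≤ 4 * G.card ∧ ∀ t ∈ G, W.Typ w e t ∧
    W.Good (2 ^ (4 * w)) (1 / 2 ^ w) (1 / 2 ^ w) (W.om * (2 ^ e) ^ 2 / 2 ^ (304 * w))
      (e - 139 * w) e t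

end Pool.Agent.P.MP_77a832_co.KC
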