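import Pool.Agent.P.MP_77a832_co.KC.Iface

/-! The core statement from the steps: choice of the constants. -/

set_option autoImplicit false

namespace Pool.Agent.P.MP_77a832_co.KC

open Finset

namespace COREx

lemma pw (w c : ℕ) : (2 : ℝ) ^ (c * w) = (2 ^ w) ^ c := by rw [mul_comm, pow_mul]

lemma pw_sub {e c w : ℕ} (h : c * w ≤ e) : (2 : ℝ) ^ (e - c * w) = 2 ^ e / (2 ^ w) ^ c := by
  rw [← pw, eq_div_iff (by positivity), ← pow_add, Nat.sub_add_cancel h]

lemma cle {y c : ℝ} (hy : 1024 ≤ y) (hc : c ≤ 1024) {a b : ℕ} (hab : a < b) :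
    c * y ^ a ≤ y ^ b :=
  calc c * y ^ a ≤ y * y ^ a := mul_le_mul_of_nonneg_right (hc.trans hy) (by positivity)
    _ = y ^ (a + 1) := by ring
    _ ≤ y ^ b := pow_le_pow_right₀ (by linarith) hab

/-- few good tuples have a heavy ball -/
lemma loc (hLOC : S_LOC) {τ Φ : Type} (W : Web τ Φ) {w e r z : ℕ} {y : ℝ} (hyw : y = 2 ^ w)
    (hy : 1024 ≤ y) (hr : r ≤ 139) (hz : z ≤ 55) (hzr : 2 * z + 29 ≤ r) (he : 139 * w ≤ e)
    (hJ : 4 * W.J + 556 * w ≤ 5 * e) (hom : 0 ≤ W.om) (Q : Finset τ)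
    (hQ : ∀ t ∈ Q, W.Good (y ^ 4) (1 / y) (1 / y) (W.om * (2 ^ e) ^ 2 / y ^ 304) (e - 139 * w) e t ∧
      ∃ i, 1 / y ^ z * 2 ^ e < W.M i e t (W.v i t) (y ^ 15 * W.ll (e - r * w) t)) :
    8 * (Q.card : ℝ) ≤ W.T.card := by
  have hrw : r * w ≤ 139 * w := Nat.mul_le_mul_right _ hr
  have y0 : 0 < y := by linarith
  have y1 : 1 ≤ y := by linarith
  have hH : (0 : ℝ) < 2 ^ e := by positivity
  have hh : (2 : ℝ) ^ (e - r * w) = 2 ^ e / y ^ r := by rw [hyw]; exact pw_sub (by omega)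
  have key := hLOC W (e - 139 * w) (e - r * w) e (y ^ 4) (1 / y) (1 / y) _ (y ^ 15) (1 / y ^ z) Q
    (by omega) (by omega) (by positivity) (by positivity) (by positivity) (by positivity)
    (by rw [div_le_one y0]; exact y1) ?_ ?_ ?_ ?_ hQ
  · rw [hh] at key
    have h1 : y ^ 4 * (4 * y ^ 15 + 6) + 2 ≤ 5 * y ^ 19 := by
      have a1 := cle hy (c := 12) (by norm_num) (show 4 < 19 by norm_num)
      have a2 := cle hy (c := 4) (by norm_num) (show 0 < 19 by norm_num)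
      have : y ^ 4 * (4 * y ^ 15 + 6) = 4 * y ^ 19 + 6 * y ^ 4 := by ring
      rw [this]; simp only [pow_zero] at a2; linarith
    have h2 : (1 / y) ^ 3 * (1 / y ^ z) ^ 2 * 2 ^ e * Q.card ≤
        48 * y ^ 4 * (2 ^ e / y ^ r) * (5 * y ^ 19) * W.T.card := key.trans (by gcongr)
    have h3 : (1 / y) ^ 3 * (1 / y ^ z) ^ 2 * 2 ^ e * Q.card =
        2 ^ e / y ^ (2 * z + 3) * Q.card := by field_simp; ring
    have h4 : 48 * y ^ 4 * (2 ^ e / y ^ r) * (5 * y ^ 19) * W.T.card =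
        2 ^ e / y ^ (2 * z + 3) * (240 * y ^ (2 * z + 26) / y ^ r * W.T.card) := by
      field_simp; ring
    rw [h3, h4] at h2
    have h5 := le_of_mul_le_mul_left h2 (by positivity)
    have h6 : 240 * y ^ (2 * z + 26) / y ^ r ≤ 1 / 8 := by
      rw [div_le_div_iff₀ (by positivity) (by norm_num)]
      have a1 := cle hy (c := 2) (by norm_num) (show 2 * z + 27 < r by omega)
      have a2 := cle hy (c := 960) (by norm_num) (show 2 * z + 26 < 2 * z + 27 by omega)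
      linarith
    have h7 : (0 : ℝ) ≤ W.T.card := Nat.cast_nonneg _
    nlinarith
  · have : 1 / y ^ z ≤ 1 := by rw [div_le_one (by positivity)]; exact one_le_pow₀ y1
    have h0 : 0 < 1 / y := by positivity
    nlinarith
  · rw [hh]
    have e1 : 4 * (W.om * (2 ^ e) ^ 2 / y ^ 304) * y ^ 4 =
        W.om * (2 ^ e) ^ 2 / y ^ 304 * (4 * y ^ 4) := by ring
    have e2 : 1 / y * (1 / y ^ z) * W.om * 2 ^ e * (2 ^ e / y ^ r) =
        W.om * (2 ^ e) ^ 2 / y ^ 304 * y ^ (304 - (z + r + 1)) := by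
      have : y ^ 304 = y ^ (304 - (z + r + 1)) * y ^ (z + r + 1) := by
        rw [← pow_add]; congr 1; omega
      rw [this]; field_simp; ring
    rw [e1, e2]
    exact mul_le_mul_of_nonneg_left (cle hy (by norm_num) (by omega)) (by positivity)
  · have e1 : 8 * (W.om * (2 ^ e) ^ 2 / y ^ 304) =
        W.om * (2 ^ e) ^ 2 / y ^ 304 * (8 * y ^ 0) := by ring
    have e2 : (1 / y) ^ 3 * (1 / y ^ z) ^ 2 * W.om * (2 ^ e) ^ 2 =
        W.om * (2 ^ e) ^ 2 / y ^ 304 * y ^ (304 - (2 * z + 3)) := by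
      have : y ^ 304 = y ^ (304 - (2 * z + 3)) * y ^ (2 * z + 3) := by
        rw [← pow_add]; congr 1; omega
      rw [this]; field_simp; ring
    rw [e1, e2]
    exact mul_le_mul_of_nonneg_left (cle hy (by norm_num) (by omega)) (by positivity)
  · rw [show (16 : ℝ) = 2 ^ 4 by norm_num, ← pow_mul]
    exact pow_le_pow_right₀ (by norm_num) (by omega)

end COREx

open COREx Web in
theorem p_CORE (hGOOD : S_GOOD) (hLOC : S_LOC) (hPAIRA : S_PAIRA) (hPAIRB : S_PAIRB)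
    (hDET : S_DET) : S_CORE := by
  classical
  intro τ Φ W F w e0 hw hT hF he0 hJ hS hty
  obtain ⟨e, hee, G, hG, hg⟩ := hGOOD W F w e0 hw hT hF he0 hS hty
  obtain ⟨y, hyw⟩ : ∃ y : ℝ, y = 2 ^ w := ⟨_, rfl⟩
  have hy : 1024 ≤ y := by
    rw [hyw, show (1024 : ℝ) = 2 ^ 10 by norm_num]
    exact pow_le_pow_right₀ (by norm_num) hw
  have y0 : 0 < y := by linarith
  have y1 : 1 ≤ y := by linarith
  simp only [pw, ← hyw] at hg hS
  obtain ⟨t1, ht1⟩ := hT
  have hom := one_le_om ht1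
  have hH : (0 : ℝ) < 2 ^ e := by positivity
  have hTp : (0 : ℝ) < W.T.card := by exact_mod_cast card_pos.2 ⟨t1, ht1⟩
  set P1 : τ → Prop := fun t =>
    ∃ i, 1 / y ^ 10 * 2 ^ e < W.M i e t (W.v i t) (y ^ 15 * W.ll (e - 49 * w) t) with hP1
  set P2 : τ → Prop := fun t =>
    ∃ i, 1 / y ^ 55 * 2 ^ e < W.M i e t (W.v i t) (y ^ 15 * W.ll (e - 139 * w) t) with hP2
  have q1 := loc hLOC W (r := 49) (z := 10) hyw hy (by norm_num) (by norm_num) (by norm_num)
    (e := e) (by omega) (by omega) (by linarith) (G.filter P1)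
    fun t ht => ⟨(hg t (mem_filter.1 ht).1).2, (mem_filter.1 ht).2⟩
  have q2 := loc hLOC W (r := 139) (z := 55) hyw hy (by norm_num) (by norm_num) (by norm_num)
    (e := e) (by omega) (by omega) (by linarith) (G.filter P2)
    fun t ht => ⟨(hg t (mem_filter.1 ht).1).2, (mem_filter.1 ht).2⟩
  obtain ⟨G', hG'⟩ : ∃ G', G' = G.filter fun t => ¬ P1 t ∧ ¬ P2 t := ⟨_, rfl⟩
  have hm : ∀ t ∈ G', t ∈ G ∧ ¬ P1 t ∧ ¬ P2 t := fun t ht => mem_filter.1 (hG' ▸ ht)
  have hc : G.card ≤ G'.card + (G.filter P1).card + (G.filter P2).card := by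
    refine le_trans (card_le_card (t := G' ∪ G.filter P1 ∪ G.filter P2) fun t ht => ?_)
      ((card_union_le _ _).trans (Nat.add_le_add_right (card_union_le _ _) _))
    simp only [hG', mem_union, mem_filter]
    tauto
  have hhalf : (W.T.card : ℝ) ≤ 2 * G'.card := by
    have a1 : (G.card : ℝ) ≤ G'.card + (G.filter P1).card + (G.filter P2).card := by
      exact_mod_cast hc
    have a2 : 3 * (W.T.card : ℝ) ≤ 4 * G.card := by exact_mod_cast hG
    linarith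
  have hsub : G' ⊆ W.T := fun t ht => (hg t (hm t ht).1).2.mem
  have hbig : y ^ 55 ≤ 2 ^ e := by
    rw [hyw, ← pw]; exact pow_le_pow_right₀ (by norm_num) (by omega)
  have hmu : 1 ≤ 1 / y ^ 55 * 2 ^ e := by
    rw [one_div_mul_eq_div, one_le_div (by positivity)]; exact hbig
  have hA := hPAIRA W F (e - 49 * w) (y ^ 4) (1 / y ^ 55 * 2 ^ e + 1) G' (by positivity)
    (by positivity) hsub fun t ht => ⟨hF t (hsub ht),
      (hg t (hm t ht).1).2.lo 0 _ (by omega) (by omega)⟩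
  have hex : ¬ ∀ t ∈ G', ∀ X : Finset ℕ, (∀ B ∈ X, ∃ s ∈ G', W.fib s = W.fib t ∧
      W.lab 0 s / 16 ^ (e - 49 * w) = W.lab 0 t / 16 ^ (e - 49 * w) ∧ W.lab 0 s = B) →
      (X.card : ℝ) ≤ 1 / y ^ 55 * 2 ^ e + 1 := by
    intro H
    have a1 := hA H
    have a2 := hS 0 1 (by decide)
    have hh : (2 : ℝ) ^ (e - 49 * w) = 2 ^ e / y ^ 49 := by rw [hyw]; exact pw_sub (by omega)
    rw [hh] at a1
    have a3 : W.om * ∑ f ∈ F, ((W.S f 0).card * (W.S f 1).card : ℝ) ≤ y * G'.card / 50 := by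
      nlinarith
    have a4 : (G'.card : ℝ) * (2 ^ e / y ^ 49) ≤
        y ^ 4 * (2 * (1 / y ^ 55 * 2 ^ e)) * (y * G'.card / 50) :=
      a1.trans (mul_le_mul (mul_le_mul_of_nonneg_left (by linarith) (by positivity)) a3
        (by positivity) (by positivity))
    have a5 : y ^ 4 * (2 * (1 / y ^ 55 * 2 ^ e)) * (y * G'.card / 50) =
        (G'.card : ℝ) * (2 ^ e / y ^ 49) * (1 / (25 * y)) := by field_simp; ring
    rw [a5] at a4
    have a6 : (0 : ℝ) < (G'.card : ℝ) * (2 ^ e / y ^ 49) :=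
      mul_pos (by linarith) (by positivity)
    have a7 : 1 / (25 * y) < 1 := by rw [div_lt_one (by positivity)]; linarith
    nlinarith
  push Not at hex
  obtain ⟨t0, -, X, hX, hXc⟩ := hex
  obtain ⟨t, ht, s, hs, hf, hcl, hll, hfar⟩ := hPAIRB W (e - 49 * w) (e - 139 * w) e (y ^ 15)
    (1 / y ^ 55 * 2 ^ e) G' t0 X (by omega) hsub
    (fun t ht => not_lt.1 fun h => (hm t ht).2.2 ⟨0, h⟩) hX (by positivity) hXc
  have hmc : ((2 ^ (14 * w) : ℕ) : ℝ) = y ^ 14 := by rw [hyw, ← pw]; norm_cast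
  have hk : (2 : ℝ) ^ (5 * w) = y ^ 5 := by rw [hyw, pw]
  have hh0 : (2 : ℝ) ^ (e - 139 * w) = 2 ^ e / y ^ 139 := by rw [hyw]; exact pw_sub (by omega)
  refine hDET W (e - 139 * w) (e - 49 * w) e (5 * w) (2 ^ (14 * w)) t s (y ^ 4) (1 / y) (1 / y) _
    (y ^ 15) (1 / y ^ 10) (y ^ 15) (hg t (hm t ht).1).2 (hg s (hm s hs).1).2 (by omega) (by omega)
    hf hcl hll hfar (fun i => not_lt.1 fun h => (hm t ht).2.1 ⟨i, h⟩) ?_ ?_ (one_le_pow₀ y1)
    (by positivity) (by positivity) Nat.one_le_two_pow ?_ ?_ ?_ ?_ ?_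
  · refine one_div_lt_one_div_of_lt y0 ?_
    have := cle hy (c := 2) (by norm_num) (show 1 < 10 by norm_num)
    rw [pow_one] at this; linarith
  · intro h h1 h2
    have := ((hg t (hm t ht).1).1 1).2.2.2 h (by omega) h2
    rwa [pw, ← hyw] at this
  · rw [hmc]; exact cle hy (by norm_num) (by norm_num)
  · rw [hmc, hh0]
    have e1 : 8 * y ^ 14 * (W.om * (2 ^ e) ^ 2 / y ^ 304) * (y ^ 4) ^ 2 =
        W.om * (2 ^ e) ^ 2 / y ^ 304 * (8 * y ^ 22) := by ring
    have e2 : 1 / y * W.om * (2 ^ e / y ^ 139) ^ 2 =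
        W.om * (2 ^ e) ^ 2 / y ^ 304 * y ^ 25 := by field_simp
    rw [e1, e2]
    exact mul_le_mul_of_nonneg_left (cle hy (by norm_num) (by norm_num)) (by positivity)
  · rw [hk]
    have e1 : 2 * y ^ 4 * y ^ 5 * (1 / y ^ 10) = 2 / y := by field_simp
    rw [e1, div_le_one y0]; linarith
  · rw [hk, hmc]
    have := cle hy (c := 8) (by norm_num) (show 13 < 14 by norm_num)
    have e1 : 4 * (y ^ 4) ^ 2 * y ^ 5 = 4 * y ^ 13 := by ring
    have : 0 < y ^ 13 := by positivity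
    rw [e1]; linarith
  · rw [hmc]
    have := cle hy (c := 16) (by norm_num) (show 14 < 15 by norm_num)
    have : 1 ≤ y ^ 14 := one_le_pow₀ y1
    linarith

end Pool.Agent.P.MP_77a832_co.KC
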