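import Pool.Agent.P.MP_77a832_co.KC.Iface

/-! Step PACK. -/

set_option autoImplicit false
set_option linter.unusedSectionVars false

namespace Pool.Agent.P.MP_77a832_co.KC

open Finset

namespace PACKx

theorem tele (G : ℕ → ℝ) (hG : Monotone G) (lo hi : ℝ) (hlh : lo ≤ hi) (V : Finset ℕ)
    (hV : ∀ u ∈ V, lo ≤ G u ∧ G (u + 1) ≤ hi) : ∑ u ∈ V, (G (u + 1) - G u) ≤ hi - lo := by
  rcases V.eq_empty_or_nonempty with rfl | hne
  · simp; linarith
  · have hsub : V ⊆ Finset.Ico (V.min' hne) (V.max' hne + 1) := by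
      intro u hu
      rw [Finset.mem_Ico]
      exact ⟨V.min'_le u hu, Nat.lt_succ_of_le (V.le_max' u hu)⟩
    have h1 : ∑ u ∈ V, (G (u + 1) - G u) ≤
        ∑ u ∈ Finset.Ico (V.min' hne) (V.max' hne + 1), (G (u + 1) - G u) :=
      Finset.sum_le_sum_of_subset_of_nonneg hsub fun u _ _ => sub_nonneg.2 (hG (Nat.le_succ u))
    have hle : V.min' hne ≤ V.max' hne + 1 := Nat.le_succ_of_le (V.min'_le_max' hne)
    rw [Finset.sum_Ico_sub G hle] at h1
    have h2 := (hV _ (V.min'_mem hne)).1
    have h3 := (hV _ (V.max'_mem hne)).2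
    linarith

theorem one (G : ℕ → ℝ) (hG : Monotone G) (V : Finset ℕ)
    (hV : ∀ u ∈ V, ∀ v ∈ V, G u < G (v + 1)) : V.card ≤ 1 := by
  rw [Finset.card_le_one]
  intro u hu v hv
  have h1 : u < v + 1 := by
    by_contra h
    exact absurd (hG (not_lt.1 h)) (not_le.2 (hV u hu v hv))
  have h2 : v < u + 1 := by
    by_contra h
    exact absurd (hG (not_lt.1 h)) (not_le.2 (hV v hv u hu))
  omega

end PACKx

theorem p_PACK :
    S_PACK := by
  classical
  intro G b r T U hG hr hT hU
  set U0 := U.filter fun u => b - 2 * r ≤ G u ∧ G (u + 1) ≤ b + 2 * r with hU0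
  set U1 := U.filter fun u => G u < b - 2 * r with hU1
  set U2 := U.filter fun u => b + 2 * r < G (u + 1) with hU2
  have hsub : U ⊆ U0 ∪ U1 ∪ U2 := by
    intro u hu
    simp only [hU0, hU1, hU2, Finset.mem_union, Finset.mem_filter]
    by_cases h1 : G u < b - 2 * r
    · exact Or.inl (Or.inr ⟨hu, h1⟩)
    · by_cases h2 : b + 2 * r < G (u + 1)
      · exact Or.inr ⟨hu, h2⟩
      · exact Or.inl (Or.inl ⟨hu, not_lt.1 h1, not_lt.1 h2⟩)
  have c1 : U1.card ≤ 1 := by
    refine PACKx.one G hG U1 fun u hu v hv => ?_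
    rw [hU1, Finset.mem_filter] at hu hv
    have := (hU v hv.1).2.1
    linarith [hu.2]
  have c2 : U2.card ≤ 1 := by
    refine PACKx.one G hG U2 fun u hu v hv => ?_
    rw [hU2, Finset.mem_filter] at hu hv
    have := (hU u hu.1).1
    linarith [hv.2]
  have c0 : (U0.card : ℝ) ≤ 4 * T := by
    rcases hr.eq_or_lt with h0 | hpos
    · have : U0 = ∅ := by
        rw [Finset.eq_empty_iff_forall_notMem]
        intro u hu
        rw [hU0, Finset.mem_filter] at hu
        have h3 := (hU u hu.1).2.2.2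
        have h4 := hu.2.1
        have h5 := hu.2.2
        rw [← h0] at h4 h5
        linarith
      rw [this]
      simp
      exact hT
    · have h1 := PACKx.tele G hG (b - 2 * r) (b + 2 * r) (by linarith) U0
        fun u hu => by
          rw [hU0, Finset.mem_filter] at hu
          exact hu.2
      have h2 : ∑ _u ∈ U0, r ≤ ∑ u ∈ U0, T * (G (u + 1) - G u) :=
        Finset.sum_le_sum fun u hu => by
          rw [hU0, Finset.mem_filter] at hu
          exact (hU u hu.1).2.2.1
      rw [Finset.sum_const, nsmul_eq_mul, ← Finset.mul_sum] at h2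
      have h3 : T * ∑ u ∈ U0, (G (u + 1) - G u) ≤ T * (b + 2 * r - (b - 2 * r)) :=
        mul_le_mul_of_nonneg_left h1 hT
      have h4 : (U0.card : ℝ) * r ≤ (4 * T) * r := by linarith
      exact le_of_mul_le_mul_right h4 hpos
  have h1 : U.card ≤ U0.card + U1.card + U2.card :=
    (Finset.card_le_card hsub).trans
      ((Finset.card_union_le _ _).trans (Nat.add_le_add_right (Finset.card_union_le _ _) _))
  have h2 : (U.card : ℝ) ≤ U0.card + U1.card + U2.card := by exact_mod_cast h1
  have h3 : (U1.card : ℝ) ≤ 1 := by exact_mod_cast c1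
  have h4 : (U2.card : ℝ) ≤ 1 := by exact_mod_cast c2
  linarith

end Pool.Agent.P.MP_77a832_co.KC
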